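import Pool.Agent.K7.H54.SG.Avg

/-!
# Project GU: averages over the box, with a general size of the main term
-/

set_option autoImplicit false
set_option linter.all false

namespace Pool.Agent.K7.H54.GU

open Finset Pool.Agent.W262.RK Pool.Agent.W307.RT Pool.Agent.TH841.PT
open Pool.Agent.K7.H54.SG

variable {J Θ : Type} [Fintype J] [DecidableEq J] [Fintype Θ] [DecidableEq Θ]

open Classical in
/-- **the average over the box** -/
theorem avgE (D : SFam J Θ) (hD : D.OK) (Rf : ℤ → ℤ × ℤ → ℝ) (hR0 : ∀ h t, 0 ≤ Rf h t)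
    (g : (J × Θ → ℕ) → Finset ℕ → ℝ) (hg0 : ∀ s E, 0 ≤ g s E) (z : ℕ)
    (hzz : D.z1 * (D.κ.natAbs + 1) ^ D.dg + D.z1 + 2 * D.c + 4 ≤ z)
    (B A D1 : ℝ) (hB : 0 ≤ B) (hA : 1 ≤ A) (hD1 : 1 ≤ D1)
    (hrank : ∀ (h : ℤ) (a b : ℤ) (X y k : ℕ), h ≠ 0 → IsCoprime a b → (∀ j, D.F a b j ≠ 0) →
      a.natAbs ≤ X → b.natAbs ≤ X → 1 ≤ X → z < y → X < (y + 1) ^ k →
      Rf h (a, b) ≤ B * A ^ om h * D1 ^ k *
        A ^ (∑ i, (S2 z y (D.pr h z a b) i).primeFactors.card) *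
        g (S1 z y (D.pr h z a b)) (D.neg h (S1 z y (D.pr h z a b)) a b))
    (hsm : ∀ a b : ℤ, (∀ j, D.F a b j ≠ 0) → ∃ B' : ℝ, 0 ≤ B' ∧ ∀ h : ℤ, h ≠ 0 →
      Rf h (a, b) ≤ B' * A ^ om h)
    (hgr : ∀ y, z < y → ∀ s e : J × Θ → ℕ, (fun j => s j * e j) ∈ Tup (J × Θ) z y →
      NBs D g (fun j => s j * e j) ≤ A ^ (∑ j, (e j).primeFactors.card) * NBs D g s)
    (M : ℕ → ℝ) (hM0 : ∀ y, z < y → 0 < M y) (ψ : ℕ → ℝ) (hψ0 : ∀ X, 0 ≤ ψ X)
    (Cψ Dψ : ℝ) (hCψ : 0 ≤ Cψ) (hDψ : 1 ≤ Dψ)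
    (hψ : ∀ X y k : ℕ, z < y → 1 ≤ X → X < (y + 1) ^ k → ψ X * D.E z y * M y ≤ Cψ * Dψ ^ k)
    (CM : ℝ) (hCM : ∀ y, z < y → ∑ s ∈ Tup (J × Θ) z y,
      NBs D g s * ∏ i, gp (D.g i) D.c (s i) ≤ CM * M y) :
    ∃ C : ℝ, 0 ≤ C ∧ ∀ (h : ℤ) (T : ℕ), h ≠ 0 → 1 ≤ T →
      ψ T * ∑ t ∈ (Box T).filter (fun t : ℤ × ℤ => IsCoprime t.1 t.2 ∧
          ∀ j, D.F t.1 t.2 j ≠ 0), Rf h t ≤ C * (2 * A) ^ om h * (T : ℝ) ^ 2 := by
  obtain ⟨Cc, K, y0, hCc0, hK1, hcn⟩ := cntG D hD z (by omega) (by omega) (by omega)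
  have hgbd : ∀ (i : J × Θ) (p : ℕ), 0 ≤ D.g i p ∧ D.g i p ≤ D.c := fun i p =>
    ⟨D.g_nonneg i p, hD.g_le i p⟩
  have hcz : D.c < z := by omega
  have hgn : ∀ {y' : ℕ} {s : J × Θ → ℕ} (_ : s ∈ Tup (J × Θ) z y')
      (i : J × Θ), 0 ≤ gp (D.g i) D.c (s i) := fun hs i =>
    gp_nonnegG hcz i ((Pool.Agent.W372.RK2.mem_Tup'.1 hs).1 i)
  have hNB0 : ∀ s, 0 ≤ NBs D g s := fun s => by
    unfold NBs
    exact mul_nonneg (by positivity) (sum_nonneg fun _ _ => hg0 _ _)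
  have hA0 : 0 < A := by linarith
  suffices key : ∃ C2 : ℝ, ∀ θ : {x : ℤ × ℕ // x.1 ≠ 0 ∧ 1 ≤ x.2},
      ∑ t ∈ (Box θ.1.2).filter (fun t : ℤ × ℤ =>
      IsCoprime t.1 t.2 ∧ ∀ j, D.F t.1 t.2 j ≠ 0), ψ θ.1.2 * Rf θ.1.1 t ≤
        C2 * ((2 * A) ^ om θ.1.1 * (θ.1.2 : ℝ) ^ 2) by
    obtain ⟨C2, hC2⟩ := key
    refine ⟨max C2 0, le_max_right _ _, fun h T hh hT => ?_⟩
    rw [mul_assoc, mul_sum]
    exact (hC2 ⟨(h, T), hh, hT⟩).trans (mul_le_mul_of_nonneg_right (le_max_left _ _)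
      (by positivity))
  refine Pool.Agent.Y455.Z8.antx (J × Θ) (ℤ × ℤ) {x : ℤ × ℕ // x.1 ≠ 0 ∧ 1 ≤ x.2}
    (fun θ => (Box θ.1.2).filter (fun t : ℤ × ℤ => IsCoprime t.1 t.2 ∧ ∀ j, D.F t.1 t.2 j ≠ 0))
    (fun θ => θ.1.2) (fun θ t => D.pr θ.1.1 z t.1 t.2)
    (fun θ => (2 * A) ^ om θ.1.1 * (θ.1.2 : ℝ) ^ 2) z
    M
    (fun s => NBs D g s * ∏ i, gp (D.g i) D.c (s i))
    (fun v => ∏ i, (A ^ (v i).primeFactors.card * (gp (D.g i) D.c (v i) / v i)))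
    (fun w => ∏ i, ((D.c : ℝ) ^ (w i).primeFactors.card / (w i : ℝ)))
    (fun θ t => ψ θ.1.2 * Rf θ.1.1 t) (Cc * B * Cψ) (D1 * Dψ) K y0
    (by omega) hM0
    (fun θ => θ.2.2) (fun θ => by positivity) (fun X0 => ?_) (fun θ t ht => ?_)
    (fun θ t => mul_nonneg (hψ0 _) (hR0 _ _)) (by positivity)
    (one_le_mul_of_one_le_of_one_le hD1 hDψ) hK1
    (fun y s hs => ⟨?_, ?_⟩) (fun y Y hzy w hw => ?_) (fun lam hlam => ?_)
    (fun lam hlam => ?_) (fun lam hlam => ?_) ?_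
  · -- small scales
    have hsm' : ∀ t : ℤ × ℤ, ∃ B' : ℝ, 0 ≤ B' ∧ ((∀ j, D.F t.1 t.2 j ≠ 0) → ∀ h : ℤ, h ≠ 0 →
        Rf h t ≤ B' * A ^ om h) := by
      intro t
      by_cases ht : ∀ j, D.F t.1 t.2 j ≠ 0
      · obtain ⟨B', h1, h2⟩ := hsm t.1 t.2 ht
        exact ⟨B', h1, fun _ => h2⟩
      · exact ⟨0, le_rfl, fun h => absurd h ht⟩
    choose B' hB'0 hB' using hsm'
    refine ⟨(∑ X ∈ range (X0 + 1), ψ X) * ∑ t ∈ Box X0, B' t, ?_⟩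
    rintro ⟨⟨h, X⟩, hh, hX⟩ hle
    simp only at hh hX hle ⊢
    have e1 : ∑ t ∈ (Box X).filter (fun t : ℤ × ℤ =>
        IsCoprime t.1 t.2 ∧ ∀ j, D.F t.1 t.2 j ≠ 0), Rf h t ≤
          ∑ t ∈ Box X0, B' t * A ^ om h := by
      refine (sum_le_sum fun t ht => hB' t (mem_filter.1 ht).2.2 h hh).trans ?_
      refine sum_le_sum_of_subset_of_nonneg ?_ fun t _ _ =>
        mul_nonneg (hB'0 t) (by positivity)
      intro t ht
      have h4 := mem_Box.1 (mem_filter.1 ht).1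
      exact mem_Box.2 ⟨h4.1.trans hle, h4.2.trans hle⟩
    rw [← mul_sum]
    have e4 : ψ X ≤ ∑ X ∈ range (X0 + 1), ψ X :=
      single_le_sum (f := ψ) (fun _ _ => hψ0 _) (mem_range.2 (by omega))
    have e5 : 0 ≤ ∑ t ∈ (Box X).filter (fun t : ℤ × ℤ =>
        IsCoprime t.1 t.2 ∧ ∀ j, D.F t.1 t.2 j ≠ 0), Rf h t := sum_nonneg fun t _ => hR0 _ _
    refine (mul_le_mul e4 e1 e5 (sum_nonneg fun _ _ => hψ0 _)).trans ?_
    rw [← sum_mul, mul_assoc]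
    apply mul_le_mul_of_nonneg_left _ (sum_nonneg fun _ _ => hψ0 _)
    apply mul_le_mul_of_nonneg_left _ (sum_nonneg fun t _ => hB'0 t)
    have e2 : (1 : ℝ) ≤ (X : ℝ) ^ 2 := one_le_pow₀ (by exact_mod_cast hX)
    have e3 : A ^ om h ≤ (2 * A) ^ om h := pow_le_pow_left₀ hA0.le (by linarith) _
    nlinarith [pow_pos hA0 (om h)]
  · have h4 := (mem_filter.1 ht).2
    exact prw_Gd h4.2 (fun p hp hzp j l => hD.un p hp (by omega) _ _
      (Pool.Agent.K7.H54.HR.cop_nd h4.1 hp) j l)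
  · exact mul_nonneg (hNB0 _) (prod_nonneg fun i _ => hgn hs i)
  · exact prod_nonneg fun i _ => mul_nonneg (by positivity)
      (div_nonneg (hgn hs i) (Nat.cast_nonneg _))
  · exact prod_nonneg fun i _ => by positivity
  · -- the first sum
    obtain ⟨A', hA'⟩ := RSPf.rsp (J × Θ) z D.c D.g (NBs D g)
      (fun y => CM * M y) A lam (by omega) hgbd hA hlam hNB0
      (fun y hy s e' hse => hgr y hy s e' hse)
      (fun y hy => hCM y hy)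
    refine ⟨A' * CM, fun y hy => ?_⟩
    have := hA' y hy
    rw [mul_assoc]
    exact this
  · exact RVU.rvp (J × Θ) z D.c D.g A lam (by omega) hgbd hA hlam
  · exact RVU.rup (J × Θ) (D.c : ℝ) lam (by exact_mod_cast hD.c1) hlam
  -- the local majorant
  rintro ⟨⟨h, X⟩, hh, hX1⟩ y Y k hy0 hzy hyK hk s hs v hv w hw h8 T' hT' hval
  simp only at hh hX1 hyK hk h8 hT' hval ⊢
  obtain ⟨W, hW⟩ : ∃ W : ℝ, W = B * A ^ om h * D1 ^ k *
      A ^ (∑ i, (v i).primeFactors.card) := ⟨_, rfl⟩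
  have hW0 : 0 ≤ W := by
    rw [hW]
    positivity
  set ng : ℤ × ℤ → Finset ℕ := fun t => D.neg h s t.1 t.2 with hng
  have e1 : ∀ t ∈ T', Rf h t ≤ W * g s (ng t) := by
    intro t ht
    have h4 := mem_filter.1 (hT' ht)
    obtain ⟨hts, htv, _⟩ := hval t ht
    have h5 := mem_Box.1 h4.1
    have h6 := hrank h t.1 t.2 X y k hh h4.2.1 h4.2.2 h5.1 h5.2 hX1 hzy hk
    rw [hts, htv] at h6
    rw [hW]
    exact h6
  have hneg : ∀ t ∈ T', ng t ∈ (D.m3 s).primeFactors.powerset := by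
    intro t _
    rw [mem_powerset, hng]
    exact filter_subset _ _
  have h2 : ∑ t ∈ T', g s (ng t) =
      ∑ E ∈ (D.m3 s).primeFactors.powerset,
        ((T'.filter (fun t => ng t = E)).card : ℝ) * g s E := by
    rw [← sum_fiberwise_of_maps_to hneg]
    refine sum_congr rfl fun E _ => ?_
    rw [← nsmul_eq_mul, ← sum_const]
    refine sum_congr rfl fun t ht => ?_
    rw [(mem_filter.1 ht).2]
  have e3 : ∀ E, ((T'.filter (fun t => ng t = E)).card : ℝ) ≤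
      Cc * X ^ 2 * RWG D s v w * D.E z y * gw D.c z h := by
    intro E
    refine le_trans ?_ (hcn X y Y hy0 hzy hyK s hs v hv w hw h8 E h hh)
    have h4 : T'.filter (fun t => ng t = E) ⊆
        (Box X).filter (fun t : ℤ × ℤ => GG D h z y s v w E t.1 t.2) := by
      intro t ht
      obtain ⟨ht', htE⟩ := mem_filter.1 ht
      have h5 := mem_filter.1 (hT' ht')
      have h6 := hval t ht'
      exact mem_filter.2 ⟨h5.1, ⟨h5.2.1, h5.2.2, h6.1, h6.2.1, h6.2.2, htE⟩⟩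
    exact_mod_cast card_le_card h4
  have hgle : gw D.c z h ≤ 2 ^ om h := gw_le (by omega) h
  have hgw0 := gw_nonneg (z := z) hcz h
  have hRWG : RWG D s v w = D.hw s * ((∏ i, gp (D.g i) D.c (s i)) *
      (∏ i, gp (D.g i) D.c (v i) / v i) *
        (∏ i, (D.c : ℝ) ^ (w i).primeFactors.card / (w i : ℝ))) := by
    unfold RWG
    ring
  have hR0' := RWG_nonneg (Y := Y) (u := w) hcz (Pool.Agent.W372.RK2.mem_Tup'.1 hs).1
    (Pool.Agent.W372.RK2.mem_Tup'.1 hv).1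
  have hE0 : 0 < D.E z y := Real.exp_pos _
  have hψ' := hψ X y k hzy hX1 hk
  have hMy := hM0 y hzy
  have hψ2 : ψ X * D.E z y ≤ Cψ * Dψ ^ k * (M y)⁻¹ := by
    rw [← div_eq_mul_inv, le_div_iff₀ hMy]
    exact hψ'
  have hNg : 0 ≤ ∑ E ∈ (D.m3 s).primeFactors.powerset, g s E := sum_nonneg fun E _ => hg0 _ _
  rw [← mul_sum]
  refine (mul_le_mul_of_nonneg_left (c := W * (Cc * X ^ 2 * RWG D s v w * D.E z y * 2 ^ om h) *
    ∑ E ∈ (D.m3 s).primeFactors.powerset, g s E) ?_ (hψ0 X)).trans ?_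
  rotate_left
  · have q1 : ψ X * (W * (Cc * X ^ 2 * RWG D s v w * D.E z y * 2 ^ om h) *
        ∑ E ∈ (D.m3 s).primeFactors.powerset, g s E) =
        (ψ X * D.E z y) * (W * (Cc * X ^ 2 * RWG D s v w * 2 ^ om h) *
          ∑ E ∈ (D.m3 s).primeFactors.powerset, g s E) := by ring
    rw [q1]
    have q2 : 0 ≤ W * (Cc * X ^ 2 * RWG D s v w * 2 ^ om h) *
          ∑ E ∈ (D.m3 s).primeFactors.powerset, g s E :=
      mul_nonneg (mul_nonneg hW0 (mul_nonneg (mul_nonneg (by positivity) hR0')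
        (by positivity))) hNg
    refine (mul_le_mul_of_nonneg_right hψ2 q2).trans (le_of_eq ?_)
    rw [hRWG, D.hw_eq hs, hW]
    unfold NBs
    rw [prod_mul_distrib (f := fun i => A ^ (v i).primeFactors.card),
      prod_pow_eq_pow_sum, mul_pow, mul_pow]
    field_simp
  calc ∑ t ∈ T', Rf h t ≤ ∑ t ∈ T', W * g s (ng t) := sum_le_sum e1
    _ = W * ∑ E ∈ (D.m3 s).primeFactors.powerset,
        ((T'.filter (fun t => ng t = E)).card : ℝ) * g s E := by rw [← mul_sum, h2]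
    _ ≤ W * ∑ E ∈ (D.m3 s).primeFactors.powerset,
        (Cc * X ^ 2 * RWG D s v w * D.E z y * 2 ^ om h) * g s E := by
        apply mul_le_mul_of_nonneg_left _ hW0
        refine sum_le_sum fun E _ => mul_le_mul_of_nonneg_right ?_ (hg0 _ _)
        refine (e3 E).trans (mul_le_mul_of_nonneg_left hgle ?_)
        exact mul_nonneg (mul_nonneg (by positivity) hR0') hE0.le
    _ = _ := by
        rw [← mul_sum]
        ring

end Pool.Agent.K7.H54.GU
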