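import Pool.Agent.K7.H54.GU.Mak
import Pool.Agent.K7.H54.GU.AvgE
import Pool.Agent.K7.H54.GT.Avg
import Pool.Agent.TH841.PM.Avg
import Pool.Agent.TH841.PM.Sub

/-!
# Project GU: the weighted moments over the box
-/

set_option autoImplicit false
set_option linter.all false

namespace Pool.Agent.K7.H54.GU

open Finset Polynomial Pool.Agent.W262.RK Pool.Agent.W307.RT Pool.Agent.TH841.PT
open Pool.Agent.R421.HF
open Pool.Agent.R421.UR
open Pool.Agent.TH841.PM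
open Pool.Agent.K7.H54.HR Pool.Agent.K7.H54.GT
open Pool.Agent.K7.H54.SG (SFam NBs avgG prw_of prw_dvd prw_pow prw_ne)
open Pool.Agent.W307.SE (SN SN_nonneg)
open Pool.Agent.TH344.JG.AvgJ (rjn rj1 DDJ one_le_DDJ rj_lip' pf_S1J pf_S2J card_largeJ)

section

variable {J : Type} [Fintype J] [DecidableEq J]

/-- the numbers of the primes -/
def nT (s : J × Ty → ℕ) (j : J) : ℕ := ∑ θ : Ty, (s (j, θ)).primeFactors.card

/-- the numbers of the prime factors with a type -/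
noncomputable def nV (D : SFam J Ty) (z : ℕ) (x w : ℤ) (j : J) : ℕ :=
  ∑ θ : Ty, (D.pr 1 z x w (j, θ)).natAbs.primeFactors.card

variable {D : SFam J Ty}

lemma S1_sub {z y : ℕ} {P : J × Ty → ℤ} (h0 : ∀ i, P i ≠ 0) (i : J × Ty) :
    (S1 z y P i).primeFactors.card ≤ (P i).natAbs.primeFactors.card := by
  refine card_le_card fun p hp => ?_
  rw [pf_S1J, mem_filter] at hp
  rw [Nat.mem_primeFactors]
  exact ⟨(mem_filter.1 hp.1).2, Int.natCast_dvd.1 hp.2.1, Int.natAbs_ne_zero.2 (h0 i)⟩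

lemma pf_sub {z y N : ℕ} {P : J × Ty → ℤ} (h0 : ∀ i, P i ≠ 0) (i : J × Ty)
    (hz : ∀ p : ℕ, p.Prime → (p : ℤ) ∣ P i → z < p) (hN : (P i).natAbs < (y + 1) ^ N) :
    (P i).natAbs.primeFactors.card ≤
      (S1 z y P i).primeFactors.card + (S2 z y P i).primeFactors.card + N := by
  have h4 : (P i).natAbs.primeFactors ⊆ ((P i).natAbs.primeFactors.filter (fun p => y < p)) ∪
      ((S1 z y P i).primeFactors ∪ (S2 z y P i).primeFactors) := by
    intro p hp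
    have hp' := Nat.mem_primeFactors.1 hp
    have hpd := Int.natCast_dvd.2 hp'.2.1
    simp only [mem_union, mem_filter, pf_S1J, pf_S2J]
    have h5 := hz p hp'.1 hpd
    by_cases h6 : y < p
    · exact Or.inl ⟨hp, h6⟩
    right
    have h7 : p ∈ PS z y := mem_filter.2 ⟨mem_Ioc.2 ⟨h5, by omega⟩, hp'.1⟩
    by_cases h8 : (p : ℤ) ^ 2 ∣ P i
    · exact Or.inr ⟨h7, h8⟩
    · exact Or.inl ⟨h7, hpd, h8⟩
  have h5 := card_le_card h4
  have h6 := card_union_le ((P i).natAbs.primeFactors.filter (fun p => y < p))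
    ((S1 z y P i).primeFactors ∪ (S2 z y P i).primeFactors)
  have h7 := card_union_le (S1 z y P i).primeFactors (S2 z y P i).primeFactors
  have h9 := card_largeJ y (P i).natAbs N 1 (P i).natAbs (Int.natAbs_ne_zero.2 (h0 i))
    (by rw [pow_one]) hN
  omega

lemma nV_bd (hD : D.OK) {z : ℕ} (hz : D.z1 ≤ z) {X y k : ℕ} {x w : ℤ} (hxy : IsCoprime x w)
    (h0 : ∀ j, D.F x w j ≠ 0) (ha : x.natAbs ≤ X) (hb : w.natAbs ≤ X) (hX : 1 ≤ X) (hzy : z < y)
    (hk : X < (y + 1) ^ k) :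
    (∀ j, nT (S1 z y (D.pr 1 z x w)) j ≤ nV D z x w j) ∧
      ∑ j, (nV D z x w j - nT (S1 z y (D.pr 1 z x w)) j) ≤
        (∑ i, (S2 z y (D.pr 1 z x w) i).primeFactors.card) +
          Fintype.card (J × Ty) * (D.dg * k + 1) := by
  have hne : ∀ i, D.pr 1 z x w i ≠ 0 := fun i => prw_ne i
  have hN : ∀ i, (D.pr 1 z x w i).natAbs < (y + 1) ^ (D.dg * k + 1) := by
    intro i
    have h1 : (D.pr 1 z x w i).natAbs ∣ (D.F x w i.1).natAbs := by
      unfold SFam.pr Pool.Agent.K7.H54.SG.prw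
      rw [Int.natAbs_natCast]
      conv_rhs => rw [← partN_mul (Int.natAbs_ne_zero.2 (h0 i.1))
        (fun p => z < p ∧ D.tyh 1 i.1 p x w = some i.2)]
      exact Dvd.intro _ rfl
    have h2 := Nat.le_of_dvd (Int.natAbs_pos.2 (h0 i.1)) h1
    have h3 := hD.sz X x w ha hb hX i.1
    have h4 : X ^ D.dg ≤ ((y + 1) ^ k) ^ D.dg := Nat.pow_le_pow_left hk.le _
    have h5 : 0 < ((y + 1) ^ k) ^ D.dg := by positivity
    calc (D.pr 1 z x w i).natAbs ≤ D.z1 * X ^ D.dg := h2.trans h3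
      _ ≤ D.z1 * ((y + 1) ^ k) ^ D.dg := Nat.mul_le_mul_left _ h4
      _ < (y + 1) * ((y + 1) ^ k) ^ D.dg := Nat.mul_lt_mul_of_pos_right (by omega) h5
      _ = (y + 1) ^ (D.dg * k + 1) := by rw [← pow_mul, pow_succ, mul_comm k]; ring
  refine ⟨fun j => sum_le_sum fun θ _ => S1_sub hne (j, θ), ?_⟩
  have h1 : ∀ j, nV D z x w j - nT (S1 z y (D.pr 1 z x w)) j ≤
      ∑ θ : Ty, ((S2 z y (D.pr 1 z x w) (j, θ)).primeFactors.card + (D.dg * k + 1)) := by
    intro j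
    rw [Nat.sub_le_iff_le_add]
    unfold nV nT
    rw [← sum_add_distrib]
    refine sum_le_sum fun θ _ => ?_
    have h2 := pf_sub (z := z) (y := y) hne (j, θ) (fun p hp hd => (prw_of h0 (j, θ) hp hd).1)
      (hN (j, θ))
    omega
  refine (sum_le_sum fun j _ => h1 j).trans (le_of_eq ?_)
  rw [← Fintype.sum_prod_type (f := fun i : J × Ty =>
    (S2 z y (D.pr 1 z x w) i).primeFactors.card + (D.dg * k + 1)), sum_add_distrib, sum_const,
    card_univ, smul_eq_mul]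

/-- the bound of the weight -/
lemma wt_bd {T : Finset (J → ℝ)} (hT : ∀ t ∈ T, ∀ j, 0 < t j) (hD : D.OK) {z : ℕ}
    (hz : D.z1 ≤ z) {X y k : ℕ} {x w : ℤ} (hxy : IsCoprime x w)
    (h0 : ∀ j, D.F x w j ≠ 0) (ha : x.natAbs ≤ X) (hb : w.natAbs ≤ X) (hX : 1 ≤ X) (hzy : z < y)
    (hk : X < (y + 1) ^ k) :
    wt T (nV D z x w) ≤ DDJ T ^ Fintype.card (J × Ty) *
      (DDJ T ^ (Fintype.card (J × Ty) * D.dg)) ^ k *
      DDJ T ^ (∑ i, (S2 z y (D.pr 1 z x w) i).primeFactors.card) *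
        wt T (nT (S1 z y (D.pr 1 z x w))) := by
  obtain ⟨h1, h2⟩ := nV_bd hD hz hxy h0 ha hb hX hzy hk
  have h3 := rj_lip' hT _ _ h1 _ h2
  refine h3.trans (le_of_eq ?_)
  congr 1
  rw [← pow_mul, ← pow_add, ← pow_add]
  congr 1
  ring

variable {cls : J → Fin 4} {a : Fin 3 → ℤ} {f : J → ℤ[X]} {ε : Fin 3 → J → ℕ} {m z1 c : ℕ}

/-- the local count with the weight -/
noncomputable def gK (k : ℕ) (T : Finset (J → ℝ)) (cls : J → Fin 4) (s : J × Ty → ℕ)
    (E : Finset ℕ) : ℝ := (NL (∏ i, s i) (LTs (clsI cls) eI s E) : ℝ) ^ k * wt T (nT s)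

lemma NBs_K (k : ℕ) (T : Finset (J → ℝ)) (s : J × Ty → ℕ) :
    NBs (famq cls a f ε m z1 c) (gK k T cls) s = NBK k (clsI cls) eI s * wt T (nT s) := by
  unfold NBs NBK P3 gK
  rw [m3_famq, ← sum_mul, mul_assoc]

open Classical in
/-- **the weighted moments over the box** -/
theorem avgW (h : HG cls a f ε m) (hG : ZZ a f z1 c) (k0 : ℕ) {T : Finset (J → ℝ)}
    (hT : ∀ t ∈ T, ∀ j, 0 < t j)
    (hm : ∃ z0 : ℕ, ∀ z, z0 ≤ z → ∃ CM : ℝ, ∀ y, z < y →
      ∑ s ∈ Tup (J × Ty) z y, NBK k0 (clsI cls) eI s *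
        (∏ i, gp ((famq cls a f ε m z1 c).g i) c (s i)) *
        wt T (fun j => ∑ θ : Ty, (s (j, θ)).primeFactors.card) ≤
        CM * Real.exp (∑ j, Sp (rs (famq cls a f ε m z1 c).g j) z y)) :
    ∃ z0 : ℕ, ∀ z, z0 ≤ z → ∃ C : ℝ, 0 ≤ C ∧ ∀ X : ℕ, 1 ≤ X →
      ∑ t ∈ (Box X).filter (fun t : ℤ × ℤ => IsCoprime t.1 t.2 ∧ ∀ j, fh f t.1 t.2 j ≠ 0),
        SN (UV a ε (fh f t.1 t.2) 0) (UV a ε (fh f t.1 t.2) 1) ^ k0 *
          wt T (nV (famq cls a f ε m z1 c) z t.1 t.2) ≤ C * (X : ℝ) ^ 2 := by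
  set D := famq cls a f ε m z1 c with hD
  have hOK : D.OK := famq_ok h hG
  obtain ⟨z0, hz0⟩ := hm
  refine ⟨z0 + D.z1 * (D.κ.natAbs + 1) ^ D.dg + D.z1 + 2 * D.c + 4 + z1, fun z hz => ?_⟩
  obtain ⟨CM, hCM⟩ := hz0 z (by omega)
  have hDD := one_le_DDJ hT
  have hDD0 : 0 ≤ DDJ T := zero_le_one.trans hDD
  obtain ⟨Q, hQ⟩ : ∃ Q : ℕ, Q = Fintype.card (J × Ty) := ⟨_, rfl⟩
  have hg0 : ∀ s E, 0 ≤ gK k0 T cls s E := fun s E =>
    mul_nonneg (pow_nonneg (Nat.cast_nonneg _) _) (rjn hT _)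
  have hR0 : ∀ x w : ℤ, 0 ≤ SN (UV a ε (fh f x w) 0) (UV a ε (fh f x w) 1) ^ k0 *
      wt T (nV D z x w) := fun x w => mul_nonneg (pow_nonneg (SN_nonneg _ _) _) (rjn hT _)
  obtain ⟨C, hC0, hC⟩ := avgG D hOK
    (fun h t => if h = 1 then SN (UV a ε (fh f t.1 t.2) 0) (UV a ε (fh f t.1 t.2) 1) ^ k0 *
      wt T (nV D z t.1 t.2) else 0)
    (fun h t => by
      split_ifs
      · exact hR0 _ _
      · exact le_rfl)
    (gK k0 T cls) hg0 z (by omega) ((4 ^ (z + Fintype.card J + 2)) ^ k0 * DDJ T ^ Q)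
    (4 ^ k0 * DDJ T)
    (((4 ^ (Fintype.card J * ∑ j, (f j).natDegree)) ^ k0) * DDJ T ^ (Q * D.dg))
    (by positivity)
    (one_le_mul_of_one_le_of_one_le (one_le_pow₀ (by norm_num)) hDD)
    (one_le_mul_of_one_le_of_one_le (one_le_pow₀ (one_le_pow₀ (by norm_num)))
      (one_le_pow₀ hDD))
    (by
      intro hh x w X y k hh0 hxy h0 hx hw hX hzy hk
      have hg := hg0 (S1 z y (D.pr hh z x w)) (D.neg hh (S1 z y (D.pr hh z x w)) x w)
      split_ifs with h1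
      · subst h1
        have h2 := rnkF h hG zero_le_one le_rfl (z := z) (by omega) (by omega) hxy h0 hx hw hX
          hzy hk
        rw [Real.rpow_one, Real.rpow_one] at h2
        have h3 := pow_le_pow_left₀ (SN_nonneg _ _) h2 k0
        have h4 := wt_bd hT hOK (by omega) hxy h0 hx hw hX hzy hk
        have e : Pool.Agent.K7.H54.SG.om 1 = 0 := by
          unfold Pool.Agent.K7.H54.SG.om
          simp
        rw [e, pow_zero, mul_one]
        refine (mul_le_mul h3 h4 (rjn hT _) (by positivity)).trans (le_of_eq ?_)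
        rw [← hD, ← hQ]
        unfold gK
        rw [mul_pow, mul_pow, mul_pow, mul_pow, mul_pow]
        rw [← pow_mul _ k k0, mul_comm k k0, pow_mul _ k0 k]
        rw [← pow_mul _ (∑ i, (S2 z y (D.pr 1 z x w) i).primeFactors.card) k0,
          mul_comm (∑ i, (S2 z y (D.pr 1 z x w) i).primeFactors.card) k0,
          pow_mul _ k0 (∑ i, (S2 z y (D.pr 1 z x w) i).primeFactors.card)]
        ring
      · have h3 : (0 : ℝ) ≤ (4 ^ (z + Fintype.card J + 2)) ^ k0 * DDJ T ^ Q *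
            (4 ^ k0 * DDJ T) ^ Pool.Agent.K7.H54.SG.om hh *
            (((4 ^ (Fintype.card J * ∑ j, (f j).natDegree)) ^ k0) * DDJ T ^ (Q * D.dg)) ^ k *
              (4 ^ k0 * DDJ T) ^ (∑ i, (S2 z y (D.pr hh z x w) i).primeFactors.card) := by
          positivity
        exact mul_nonneg h3 hg)
    (by
      intro x w h0
      refine ⟨SN (UV a ε (fh f x w) 0) (UV a ε (fh f x w) 1) ^ k0 * wt T (nV D z x w),
        hR0 _ _, fun hh hh0 => ?_⟩
      have h1 := hR0 x w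
      have h2 : (1 : ℝ) ≤ (4 ^ k0 * DDJ T) ^ Pool.Agent.K7.H54.SG.om hh :=
        one_le_pow₀ (one_le_mul_of_one_le_of_one_le (one_le_pow₀ (by norm_num)) hDD)
      split_ifs
      · exact le_mul_of_one_le_right h1 h2
      · positivity)
    (by
      intro y hy s e hse
      rw [NBs_K, NBs_K]
      exact growK hT SUBf.subk (cls := cls) (by omega) s e hse)
    CM
    (by
      intro y hy
      have h1 := hCM y hy
      rw [hD, E_famq]
      refine le_trans (le_of_eq ?_) h1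
      refine sum_congr rfl fun s _ => ?_
      rw [NBs_K, mul_right_comm]
      rfl)
  refine ⟨C * (2 * (4 ^ k0 * DDJ T)) ^ Pool.Agent.K7.H54.SG.om 1, by positivity,
    fun X hX => ?_⟩
  have h1 := hC 1 X one_ne_zero hX
  simp only [eq_self_iff_true, if_true] at h1
  exact h1

end

end Pool.Agent.K7.H54.GU
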