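import Pool.Agent.K7.H54.GU.AvgK
import Pool.Agent.Y430.PW.Ful

/-!
# Project GU: the pairs with small weight are rare
-/

set_option autoImplicit false
set_option linter.all false

namespace Pool.Agent.K7.H54.GU

open Finset Polynomial Pool.Agent.W262.RK Pool.Agent.W307.RT Pool.Agent.TH841.PT
open Pool.Agent.R421.HF
open Pool.Agent.R421.UR
open Pool.Agent.TH841.PM
open Pool.Agent.K7.H54.HR Pool.Agent.K7.H54.GT
open Pool.Agent.K7.H54.SG (SFam NBs avgG prw_of prw_dvd prw_pow prw_ne)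
open Pool.Agent.TH344.JG.AvgJ (rjn rj1 DDJ one_le_DDJ rj_lip' pf_S1J pf_S2J card_largeJ)

section

variable {J : Type} [Fintype J] [DecidableEq J]

/-- the product of the powers -/
noncomputable def XW (x : J → ℝ) (n : J → ℕ) : ℝ := ∏ j, x j ^ n j

lemma XW_pos {x : J → ℝ} (hx : ∀ j, 0 < x j) (n : J → ℕ) : 0 < XW x n :=
  prod_pos fun j _ => pow_pos (hx j) _

lemma XW_lip {x : J → ℝ} (hx : ∀ j, 0 < x j) {A : ℝ} (hA1 : 1 ≤ A) (hA : ∀ j, x j ≤ A)
    {n n' : J → ℕ} (h : ∀ j, n j ≤ n' j) {m : ℕ} (hm : ∑ j, (n' j - n j) ≤ m) :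
    XW x n' ≤ A ^ m * XW x n := by
  have h1 : XW x n' = (∏ j, x j ^ (n' j - n j)) * XW x n := by
    unfold XW
    rw [← prod_mul_distrib]
    refine prod_congr rfl fun j _ => ?_
    rw [← pow_add, Nat.sub_add_cancel (h j)]
  rw [h1]
  refine mul_le_mul_of_nonneg_right ?_ (XW_pos hx n).le
  have h2 : ∏ j, x j ^ (n' j - n j) ≤ ∏ j : J, A ^ (n' j - n j) :=
    prod_le_prod (fun j _ => pow_nonneg (hx j).le _)
      fun j _ => pow_le_pow_left₀ (hx j).le (hA j) _
  refine h2.trans ?_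
  rw [prod_pow_eq_pow_sum]
  exact pow_le_pow_right₀ hA1 hm

/-- the sum over the tuples -/
lemma sum_XW {g : J × Ty → ℕ → ℝ} {c : ℕ} {B : ℝ} (hg : ∀ i p, 0 ≤ g i p ∧ g i p ≤ B)
    (x : J → ℝ) (hx : ∀ j, 0 < x j) (z : ℕ) (hz : 2 * c + 2 ≤ z) :
    ∃ C : ℝ, 0 ≤ C ∧ ∀ y, z < y → ∑ s ∈ Tup (J × Ty) z y,
      XW x (nT s) * ∏ i, gp (g i) c (s i) ≤ C * Real.exp (∑ j, x j * Sp (rs g j) z y) := by
  have h1 : ∀ i : J × Ty, ∃ C : ℝ, 1 ≤ C ∧ ∀ y, z < y →
      ∑ d ∈ (PP z y).divisors, gp (fun p => x i.1 * g i p) c d ≤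
        C * Real.exp (Sp (fun p => x i.1 * g i p) z y) := by
    intro i
    obtain ⟨C, E, hC, h2, _⟩ := Pool.Agent.Y430.PW.fuls (fun p => x i.1 * g i p) c z (x i.1 * B)
      (fun p => ⟨mul_nonneg (hx _).le (hg i p).1, mul_le_mul_of_nonneg_left (hg i p).2 (hx _).le⟩)
      hz
    exact ⟨C, hC, h2⟩
  choose C hC1 hC using h1
  refine ⟨∏ i, C i, prod_nonneg fun i _ => zero_le_one.trans (hC1 i), fun y hy => ?_⟩
  have hgn : ∀ (i : J × Ty) (d : ℕ), d ∈ (PP z y).divisors →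
      0 ≤ gp (fun p => x i.1 * g i p) c d := fun i d hd =>
    ATS8.gp_nonneg (fun p => mul_nonneg (hx _).le (hg i p).1) (by omega) hd
  have h2 : ∀ s ∈ Tup (J × Ty) z y, XW x (nT s) * ∏ i, gp (g i) c (s i) =
      ∏ i : J × Ty, gp (fun p => x i.1 * g i p) c (s i) := by
    intro s hs
    have h3 : XW x (nT s) = ∏ i : J × Ty, x i.1 ^ (s i).primeFactors.card := by
      unfold XW nT
      rw [Fintype.prod_prod_type]
      exact prod_congr rfl fun j _ => (prod_pow_eq_pow_sum _ _ _).symm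
    rw [h3, ← prod_mul_distrib]
    refine prod_congr rfl fun i _ => ?_
    unfold gp
    rw [← prod_const, ← prod_mul_distrib]
    refine prod_congr rfl fun p _ => ?_
    ring
  rw [sum_congr rfl h2]
  have h4 : ∑ s ∈ Tup (J × Ty) z y, ∏ i : J × Ty, gp (fun p => x i.1 * g i p) c (s i) ≤
      ∏ i : J × Ty, ∑ d ∈ (PP z y).divisors, gp (fun p => x i.1 * g i p) c d := by
    rw [prod_univ_sum]
    refine sum_le_sum_of_subset_of_nonneg (filter_subset _ _) fun s hs _ => ?_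
    exact prod_nonneg fun i _ => hgn i _ (Fintype.mem_piFinset.1 hs i)
  refine h4.trans ?_
  refine (prod_le_prod (fun i _ => sum_nonneg fun d hd => hgn i d hd)
    fun i _ => hC i y hy).trans (le_of_eq ?_)
  rw [prod_mul_distrib, ← Real.exp_sum]
  congr 2
  rw [Fintype.sum_prod_type]
  refine sum_congr rfl fun j _ => ?_
  unfold Sp rs
  rw [sum_comm, mul_sum]
  refine sum_congr rfl fun p _ => ?_
  rw [← sum_div]
  have h5 : ∑ i : Ty, x (j, i).1 * g (j, i) p = x j * ∑ i : Ty, g (j, i) p := by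
    rw [mul_sum]
  beta_reduce
  rw [h5]
  ring

/-- small powers -/
lemma exists_beta (δ : J → ℝ) (hδ : ∀ j, 0 < δ j) (t : J → ℝ) (ht : ∀ j, 0 < t j)
    (h : 0 < ∑ j, δ j * Real.log (t j)) :
    ∃ β : ℝ, 0 < β ∧ ∑ j, δ j * t j ^ (-β) < ∑ j, δ j := by
  obtain ⟨S, hS⟩ : ∃ S : ℝ, S = ∑ j, δ j * Real.log (t j) := ⟨_, rfl⟩
  obtain ⟨Q, hQ⟩ : ∃ Q : ℝ, Q = ∑ j, δ j * Real.log (t j) ^ 2 := ⟨_, rfl⟩
  obtain ⟨L, hL⟩ : ∃ L : ℝ, L = ∑ j, |Real.log (t j)| := ⟨_, rfl⟩
  have hQ0 : 0 ≤ Q := by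
    rw [hQ]
    exact sum_nonneg fun j _ => mul_nonneg (hδ j).le (sq_nonneg _)
  have hL0 : 0 ≤ L := by rw [hL]; exact sum_nonneg fun j _ => abs_nonneg _
  rw [← hS] at h
  obtain ⟨β, hβ⟩ : ∃ β : ℝ, β = min (1 / (L + 1)) (S / (2 * (Q + 1))) := ⟨_, rfl⟩
  have hβ0 : 0 < β := by
    rw [hβ]
    apply lt_min <;> positivity
  have hβ1 : β ≤ 1 / (L + 1) := by rw [hβ]; exact min_le_left _ _
  have hβ2 : β ≤ S / (2 * (Q + 1)) := by rw [hβ]; exact min_le_right _ _
  refine ⟨β, hβ0, ?_⟩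
  have h1 : ∀ j, t j ^ (-β) ≤ 1 - β * Real.log (t j) + β ^ 2 * Real.log (t j) ^ 2 := by
    intro j
    have hj : |Real.log (t j)| ≤ L := by
      rw [hL]
      exact single_le_sum (f := fun j => |Real.log (t j)|) (fun _ _ => abs_nonneg _) (mem_univ j)
    have h2 : |(-β * Real.log (t j))| ≤ 1 := by
      rw [abs_mul, abs_neg, abs_of_pos hβ0]
      have h3 : β * |Real.log (t j)| ≤ 1 / (L + 1) * L :=
        mul_le_mul hβ1 hj (abs_nonneg _) (by positivity)
      refine h3.trans ?_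
      rw [div_mul_eq_mul_div, one_mul, div_le_one (by linarith)]
      linarith
    have h3 := Real.abs_exp_sub_one_sub_id_le h2
    have h4 := (abs_le.1 h3).2
    rw [Real.rpow_def_of_pos (ht j), mul_comm (Real.log (t j))]
    nlinarith
  have h2 : ∑ j, δ j * t j ^ (-β) ≤ ∑ j, δ j - β * S + β ^ 2 * Q := by
    have h3 : ∑ j, δ j * t j ^ (-β) ≤
        ∑ j, δ j * (1 - β * Real.log (t j) + β ^ 2 * Real.log (t j) ^ 2) :=
      sum_le_sum fun j _ => mul_le_mul_of_nonneg_left (h1 j) (hδ j).le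
    refine h3.trans (le_of_eq ?_)
    rw [hS, hQ, mul_sum, mul_sum, ← sum_sub_distrib, ← sum_add_distrib]
    refine sum_congr rfl fun j _ => ?_
    ring
  have h3 : β * Q < S := by
    have h4 : β * Q ≤ S / (2 * (Q + 1)) * Q := mul_le_mul_of_nonneg_right hβ2 hQ0
    have h5 : S / (2 * (Q + 1)) * Q < S := by
      rw [div_mul_eq_mul_div, div_lt_iff₀ (by linarith)]
      nlinarith
    linarith
  nlinarith

variable {cls : J → Fin 4} {a : Fin 3 → ℤ} {f : J → ℤ[X]} {ε : Fin 3 → J → ℕ} {m z1 c : ℕ}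

lemma NBs_XW (D : SFam J Ty) (x : J → ℝ) (s : J × Ty → ℕ) :
    NBs D (fun s _ => XW x (nT s)) s = XW x (nT s) := by
  unfold NBs
  rw [sum_const, card_powerset, nsmul_eq_mul]
  push_cast
  rw [← mul_assoc, ← mul_pow]
  norm_num

lemma log3 {y : ℕ} (hy : 2 ≤ y) : Real.log ((y : ℝ) + 3) ≤ 3 * Real.log y := by
  have h1 : (2 : ℝ) ≤ y := by exact_mod_cast hy
  have h2 : (3 : ℝ) * Real.log y = Real.log ((y : ℝ) ^ 3) := by
    rw [Real.log_pow]
    norm_num
  rw [h2]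
  apply Real.log_le_log (by linarith)
  nlinarith [sq_nonneg ((y : ℝ) - 2)]

lemma psi_bd {X y k : ℕ} (hy : 2 ≤ y) (hk : X < (y + 1) ^ k) :
    Real.log ((X : ℝ) + 3) ≤ 3 * 2 ^ k * Real.log y := by
  have h1 : (X : ℝ) + 3 ≤ ((y : ℝ) + 3) ^ (k + 1) := by
    have h2 : X + 3 ≤ (y + 3) ^ (k + 1) := by
      have h3 : (y + 1) ^ k ≤ (y + 3) ^ k := Nat.pow_le_pow_left (by omega) _
      have h4 : 1 ≤ (y + 3) ^ k := Nat.one_le_pow _ _ (by omega)
      have h5 : (y + 3) ^ (k + 1) = (y + 3) ^ k * (y + 3) := pow_succ _ _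
      rw [h5]
      nlinarith
    exact_mod_cast h2
  have h2 := Real.log_le_log (by positivity) h1
  rw [Real.log_pow] at h2
  have h3 := log3 hy
  have h4 : ((k + 1 : ℕ) : ℝ) ≤ 2 ^ k := by
    have : k + 1 ≤ 2 ^ k := Nat.lt_two_pow_self
    exact_mod_cast this
  have h5 : 0 ≤ Real.log y := Real.log_nonneg (by exact_mod_cast (by omega : 1 ≤ y))
  have h6 : 0 ≤ Real.log ((y : ℝ) + 3) := Real.log_nonneg (by
    have : (0 : ℝ) ≤ y := Nat.cast_nonneg _
    linarith)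
  calc Real.log ((X : ℝ) + 3) ≤ ((k + 1 : ℕ) : ℝ) * Real.log ((y : ℝ) + 3) := h2
    _ ≤ 2 ^ k * (3 * Real.log y) := mul_le_mul h4 h3 h6 (by positivity)
    _ = _ := by ring

open Classical in
/-- **the pairs with small weight are rare** -/
theorem badQ (h : HG cls a f ε m) (hG : ZZ a f z1 c) (sp : J → Bool)
    (hsp1 : ∀ j, cls j ≠ 3 → sp j = false → NSqg (f j) (KQ cls a f ε j) 1)
    (hsp2 : ∀ j, cls j ≠ 3 → sp j = true → ∃ q : ℚ[X], mQ (f j) ∣ q ^ 2 - mQ (KQ cls a f ε j))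
    (T : Finset (J → ℝ)) (hT : ∀ t ∈ T, ∀ j, 0 < t j)
    (hT2 : ∀ t ∈ T, 0 < ∑ j, ddq cls ε sp j * Real.log (t j)) :
    ∃ z0 : ℕ, ∀ z, z0 ≤ z → ∀ e : ℝ, 0 < e → ∃ X0 : ℕ, ∀ X : ℕ, X0 ≤ X →
      (((Box X).filter (fun t : ℤ × ℤ => (IsCoprime t.1 t.2 ∧ ∀ j, fh f t.1 t.2 j ≠ 0) ∧
        wt T (nV (famq cls a f ε m z1 c) z t.1 t.2) < 1)).card : ℝ) ≤ e * (X : ℝ) ^ 2 := by
  set D := famq cls a f ε m z1 c with hD
  have hOK : D.OK := famq_ok h hG
  have hδ : ∀ j, 0 < ddq cls ε sp j := by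
    intro j
    unfold ddq
    split_ifs <;> norm_num
  obtain ⟨z0, hz0⟩ := mdlQ Pool.Agent.TH841.TR.h1l Pool.Agent.TH841.PT.twg h sp hsp1 hsp2 hG
  refine ⟨z0 + D.z1 * (D.κ.natAbs + 1) ^ D.dg + D.z1 + 2 * D.c + 4 + z1 + 2 * c, fun z hz => ?_⟩
  obtain ⟨C0, E0, hM⟩ := hz0 z (by omega)
  have hgB : ∀ i p, 0 ≤ D.g i p ∧ D.g i p ≤ (D.c : ℝ) := fun i p =>
    ⟨D.g_nonneg i p, hOK.g_le i p⟩
  -- one vector
  have hone : ∀ t : J → ℝ, t ∈ T → ∃ (η C : ℝ), 0 < η ∧ 0 ≤ C ∧ ∀ X : ℕ, 1 ≤ X →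
      (Real.log ((X : ℝ) + 3)) ^ η * (((Box X).filter (fun s : ℤ × ℤ =>
        (IsCoprime s.1 s.2 ∧ ∀ j, fh f s.1 s.2 j ≠ 0) ∧
          ∏ j, t j ^ nV D z s.1 s.2 j < 1)).card : ℝ) ≤ C * (X : ℝ) ^ 2 := by
    intro t ht
    obtain ⟨β, hβ0, hβ⟩ := exists_beta (ddq cls ε sp) hδ t (hT t ht) (hT2 t ht)
    obtain ⟨x, hx⟩ : ∃ x : J → ℝ, x = fun j => t j ^ (-β) := ⟨_, rfl⟩
    have hx0 : ∀ j, 0 < x j := by
      intro j
      rw [hx]
      exact Real.rpow_pos_of_pos (hT t ht j) _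
    obtain ⟨η, hη⟩ : ∃ η : ℝ, η = ∑ j, ddq cls ε sp j - ∑ j, ddq cls ε sp j * x j := ⟨_, rfl⟩
    have hη0 : 0 < η := by
      rw [hη, hx]
      linarith
    obtain ⟨A, hA⟩ : ∃ A : ℝ, A = 1 + ∑ j, x j := ⟨_, rfl⟩
    have hsx : 0 ≤ ∑ j, x j := sum_nonneg fun j _ => (hx0 j).le
    have hA1 : 1 ≤ A := by rw [hA]; linarith
    have hAx : ∀ j, x j ≤ A := by
      intro j
      have := single_le_sum (f := x) (fun j _ => (hx0 j).le) (mem_univ j)
      rw [hA]
      linarith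
    obtain ⟨Cs, hCs0, hCs⟩ := sum_XW hgB x hx0 z (c := D.c) (by omega)
    obtain ⟨Q, hQ⟩ : ∃ Q : ℕ, Q = Fintype.card (J × Ty) := ⟨_, rfl⟩
    obtain ⟨CM, hCMd⟩ : ∃ CM : ℝ, CM = Cs * Real.exp (∑ j, |x j - 1| * C0) := ⟨_, rfl⟩
    obtain ⟨C, hC0, hC⟩ := avgE D hOK
      (fun h s => if h = 1 then XW x (nV D z s.1 s.2) else 0)
      (fun h s => by
        split_ifs
        · exact (XW_pos hx0 _).le
        · exact le_rfl)
      (fun s _ => XW x (nT s)) (fun s _ => (XW_pos hx0 _).le) z (by omega) (A ^ Q) A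
      (A ^ (Q * D.dg)) (by positivity) hA1 (one_le_pow₀ hA1)
      (by
        intro hh x' w X y k hh0 hxy h0 hx' hw hX hzy hk
        have hp := (XW_pos hx0 (nT (S1 z y (D.pr hh z x' w)))).le
        split_ifs with h1
        · subst h1
          obtain ⟨q1, q2⟩ := nV_bd hOK (by omega) hxy h0 hx' hw hX hzy hk
          have q3 := XW_lip hx0 hA1 hAx q1 q2
          have e : Pool.Agent.K7.H54.SG.om 1 = 0 := by
            unfold Pool.Agent.K7.H54.SG.om
            simp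
          rw [e, pow_zero, mul_one]
          refine q3.trans (le_of_eq ?_)
          rw [← hQ]
          congr 1
          rw [← pow_mul, ← pow_add, ← pow_add]
          congr 1
          ring
        · exact mul_nonneg (by positivity) hp)
      (by
        intro x' w h0
        refine ⟨XW x (nV D z x' w), (XW_pos hx0 _).le, fun hh hh0 => ?_⟩
        have h1 := (XW_pos hx0 (nV D z x' w)).le
        have h2 : (1 : ℝ) ≤ A ^ Pool.Agent.K7.H54.SG.om hh := one_le_pow₀ hA1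
        split_ifs
        · exact le_mul_of_one_le_right h1 h2
        · positivity)
      (by
        intro y hy s e hse
        rw [NBs_XW, NBs_XW]
        have hne : ∀ i, s i * e i ≠ 0 := by
          intro i
          have h2 := (Fintype.mem_piFinset.1 (mem_filter.1 hse).1) i
          exact Nat.pos_of_mem_divisors h2 |>.ne'
        refine XW_lip hx0 hA1 hAx (fun j => sum_le_sum fun θ _ => ?_) ?_
        · exact card_le_card (Nat.primeFactors_mono (Dvd.intro _ rfl) (hne _))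
        · rw [Fintype.sum_prod_type]
          refine sum_le_sum fun j _ => ?_
          beta_reduce
          rw [Nat.sub_le_iff_le_add, ← sum_add_distrib]
          refine sum_le_sum fun θ _ => ?_
          have h3 : (s (j, θ) * e (j, θ)).primeFactors =
              (s (j, θ)).primeFactors ∪ (e (j, θ)).primeFactors :=
            Nat.primeFactors_mul (left_ne_zero_of_mul (hne _)) (right_ne_zero_of_mul (hne _))
          rw [h3]
          have := card_union_le (s (j, θ)).primeFactors (e (j, θ)).primeFactors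
          omega)
      (fun y => (D.E z y)⁻¹ * (Real.log y) ^ (-η))
      (fun y hy => mul_pos (inv_pos.2 (Real.exp_pos _)) (Real.rpow_pos_of_pos
        (Real.log_pos (by exact_mod_cast (by omega : 1 < y))) _))
      (fun X => (Real.log ((X : ℝ) + 3)) ^ η)
      (fun X => Real.rpow_nonneg (Real.log_nonneg (by
        have : (0 : ℝ) ≤ X := Nat.cast_nonneg _
        linarith)) _)
      (3 ^ η) (2 ^ η) (by positivity) (Real.one_le_rpow (by norm_num) hη0.le)
      (by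
        intro X y k hzy hX hk
        have hE0 : 0 < D.E z y := Real.exp_pos _
        have hly : 0 < Real.log y := Real.log_pos (by exact_mod_cast (by omega : 1 < y))
        have h1 := psi_bd (by omega : 2 ≤ y) hk
        have h2 : 0 ≤ Real.log ((X : ℝ) + 3) := Real.log_nonneg (by
          have : (0 : ℝ) ≤ X := Nat.cast_nonneg _
          linarith)
        have h3 := Real.rpow_le_rpow h2 h1 hη0.le
        have e1 : Real.log ((X : ℝ) + 3) ^ η * D.E z y * ((D.E z y)⁻¹ * Real.log y ^ (-η)) =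
            Real.log ((X : ℝ) + 3) ^ η * Real.log y ^ (-η) := by
          field_simp
        rw [e1]
        have e2 : (3 * 2 ^ k * Real.log y) ^ η = 3 ^ η * (2 ^ η) ^ k * Real.log y ^ η := by
          rw [Real.mul_rpow (by positivity) hly.le, Real.mul_rpow (by norm_num) (by positivity)]
          congr 2
          rw [← Real.rpow_natCast, ← Real.rpow_natCast, ← Real.rpow_mul (by norm_num),
            ← Real.rpow_mul (by norm_num), mul_comm]
        rw [e2] at h3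
        have h4 : 0 < Real.log y ^ (-η) := Real.rpow_pos_of_pos hly _
        have h5 : Real.log y ^ η * Real.log y ^ (-η) = 1 := by
          rw [← Real.rpow_add hly, add_neg_cancel, Real.rpow_zero]
        calc Real.log ((X : ℝ) + 3) ^ η * Real.log y ^ (-η) ≤
            3 ^ η * (2 ^ η) ^ k * Real.log y ^ η * Real.log y ^ (-η) :=
              mul_le_mul_of_nonneg_right h3 h4.le
          _ = 3 ^ η * (2 ^ η) ^ k * (Real.log y ^ η * Real.log y ^ (-η)) := by ring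
          _ = 3 ^ η * (2 ^ η) ^ k := by rw [h5, mul_one])
      CM
      (by
        intro y hy
        have h1 := hCs y hy
        have hly : 0 < Real.log y := Real.log_pos (by exact_mod_cast (by omega : 1 < y))
        have h2 : ∑ s ∈ Tup (J × Ty) z y, NBs D (fun s _ => XW x (nT s)) s *
            ∏ i, gp (D.g i) D.c (s i) = ∑ s ∈ Tup (J × Ty) z y, XW x (nT s) *
              ∏ i, gp (D.g i) D.c (s i) := sum_congr rfl fun s _ => by rw [NBs_XW]
        rw [h2]
        refine h1.trans ?_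
        rw [hCMd, mul_assoc, hD, E_famq, ← hD, Real.rpow_def_of_pos hly, ← Real.exp_add,
          ← Real.exp_add]
        refine mul_le_mul_of_nonneg_left (Real.exp_le_exp.2 ?_) hCs0
        have h3 : ∀ j, (x j - 1) * Sp (rs D.g j) z y ≤
            (x j - 1) * (ddq cls ε sp j * Real.log (Real.log y)) + |x j - 1| * C0 := by
          intro j
          have e1 := hM.lo j y hy
          have e2 := hM.up j y hy
          have e3 : |Sp (rs D.g j) z y - ddq cls ε sp j * Real.log (Real.log y)| ≤ C0 := by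
            rw [abs_le]
            constructor <;> linarith
          have e4 : (x j - 1) * (Sp (rs D.g j) z y - ddq cls ε sp j * Real.log (Real.log y)) ≤
              |x j - 1| * C0 := by
            refine (le_abs_self _).trans ?_
            rw [abs_mul]
            exact mul_le_mul_of_nonneg_left e3 (abs_nonneg _)
          linarith
        have h4 := sum_le_sum fun j (_ : j ∈ (univ : Finset J)) => h3 j
        rw [sum_add_distrib] at h4
        have h5 : ∑ j, (x j - 1) * (ddq cls ε sp j * Real.log (Real.log y)) =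
            -η * Real.log (Real.log y) := by
          rw [hη, neg_mul, sub_mul, sum_mul, sum_mul, ← sum_sub_distrib, ← sum_neg_distrib]
          refine sum_congr rfl fun j _ => ?_
          ring
        have h6 : ∑ j, (x j - 1) * Sp (rs D.g j) z y =
            ∑ j, x j * Sp (rs D.g j) z y - ∑ j, Sp (rs D.g j) z y := by
          rw [← sum_sub_distrib]
          refine sum_congr rfl fun j _ => ?_
          ring
        rw [h5, h6] at h4
        linarith)
    refine ⟨η, C * (2 * A) ^ Pool.Agent.K7.H54.SG.om 1, hη0, by positivity, fun X hX => ?_⟩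
    have h1 := hC 1 X one_ne_zero hX
    simp only [eq_self_iff_true, if_true] at h1
    refine le_trans ?_ h1
    refine mul_le_mul_of_nonneg_left ?_ (Real.rpow_nonneg (Real.log_nonneg (by
      have : (0 : ℝ) ≤ X := Nat.cast_nonneg _
      linarith)) _)
    have h2 : (((Box X).filter (fun s : ℤ × ℤ =>
        (IsCoprime s.1 s.2 ∧ ∀ j, fh f s.1 s.2 j ≠ 0) ∧
          ∏ j, t j ^ nV D z s.1 s.2 j < 1)).card : ℝ) =
        ∑ s ∈ (Box X).filter (fun s : ℤ × ℤ =>
          (IsCoprime s.1 s.2 ∧ ∀ j, fh f s.1 s.2 j ≠ 0) ∧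
          ∏ j, t j ^ nV D z s.1 s.2 j < 1), (1 : ℝ) := by simp
    rw [h2]
    have h3 : ∀ s ∈ (Box X).filter (fun s : ℤ × ℤ =>
          (IsCoprime s.1 s.2 ∧ ∀ j, fh f s.1 s.2 j ≠ 0) ∧
          ∏ j, t j ^ nV D z s.1 s.2 j < 1), (1 : ℝ) ≤ XW x (nV D z s.1 s.2) := by
      intro s hs
      have h4 := (mem_filter.1 hs).2.2
      have h5 : XW x (nV D z s.1 s.2) = (∏ j, t j ^ nV D z s.1 s.2 j) ^ (-β) := by
        unfold XW
        rw [hx, ← Real.finsetProd_rpow _ _ (fun j _ => pow_nonneg (hT t ht j).le _)]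
        refine prod_congr rfl fun j _ => ?_
        rw [← Real.rpow_natCast, ← Real.rpow_natCast, ← Real.rpow_mul (hT t ht j).le,
          ← Real.rpow_mul (hT t ht j).le, mul_comm]
      rw [h5]
      exact Real.one_le_rpow_of_pos_of_le_one_of_nonpos
        (prod_pos fun j _ => pow_pos (hT t ht j) _) h4.le (by linarith)
    refine (sum_le_sum h3).trans ?_
    refine sum_le_sum_of_subset_of_nonneg ?_ fun s _ _ => (XW_pos hx0 _).le
    intro s hs
    obtain ⟨h4, h5⟩ := mem_filter.1 hs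
    exact mem_filter.2 ⟨h4, h5.1⟩
  -- all the vectors
  choose! η C hη hC0 hC using hone
  intro e he
  have hlim : ∀ t ∈ T, ∃ X0 : ℕ, ∀ X : ℕ, X0 ≤ X →
      C t ≤ e / (T.card + 1) * (Real.log ((X : ℝ) + 3)) ^ η t := by
    intro t ht
    have h1 : Filter.Tendsto (fun X : ℕ => (Real.log ((X : ℝ) + 3)) ^ η t) Filter.atTop
        Filter.atTop := by
      refine (tendsto_rpow_atTop (hη t ht)).comp (Real.tendsto_log_atTop.comp ?_)
      exact Filter.tendsto_atTop_add_const_right _ _ tendsto_natCast_atTop_atTop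
    have h2 := h1.eventually_ge_atTop (C t / (e / (T.card + 1)))
    obtain ⟨X0, hX0⟩ := Filter.eventually_atTop.1 h2
    refine ⟨X0, fun X hX => ?_⟩
    have h3 := hX0 X hX
    have h4 : (0 : ℝ) < e / (T.card + 1) := by positivity
    rw [div_le_iff₀ h4] at h3
    linarith
  choose! X0 hX0 using hlim
  refine ⟨1 + ∑ t ∈ T, X0 t, fun X hX => ?_⟩
  have hsub : (Box X).filter (fun t : ℤ × ℤ => (IsCoprime t.1 t.2 ∧ ∀ j, fh f t.1 t.2 j ≠ 0) ∧
        wt T (nV D z t.1 t.2) < 1) ⊆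
      T.biUnion (fun t => (Box X).filter (fun s : ℤ × ℤ =>
        (IsCoprime s.1 s.2 ∧ ∀ j, fh f s.1 s.2 j ≠ 0) ∧
          ∏ j, t j ^ nV D z s.1 s.2 j < 1)) := by
    intro s hs
    obtain ⟨h1, h2, h3⟩ := mem_filter.1 hs
    obtain ⟨t, ht, h4⟩ := Pool.Agent.TH344.DT.rho_lt_one h3
    exact mem_biUnion.2 ⟨t, ht, mem_filter.2 ⟨h1, h2, h4⟩⟩
  have h1 : (((Box X).filter (fun t : ℤ × ℤ => (IsCoprime t.1 t.2 ∧
      ∀ j, fh f t.1 t.2 j ≠ 0) ∧ wt T (nV D z t.1 t.2) < 1)).card : ℝ) ≤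
      ∑ t ∈ T, (((Box X).filter (fun s : ℤ × ℤ =>
        (IsCoprime s.1 s.2 ∧ ∀ j, fh f s.1 s.2 j ≠ 0) ∧
          ∏ j, t j ^ nV D z s.1 s.2 j < 1)).card : ℝ) := by
    exact_mod_cast (card_le_card hsub).trans card_biUnion_le
  refine h1.trans ?_
  have h2 : ∀ t ∈ T, (((Box X).filter (fun s : ℤ × ℤ =>
        (IsCoprime s.1 s.2 ∧ ∀ j, fh f s.1 s.2 j ≠ 0) ∧
          ∏ j, t j ^ nV D z s.1 s.2 j < 1)).card : ℝ) ≤ e / (T.card + 1) * (X : ℝ) ^ 2 := by
    intro t ht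
    have h3 := hC t ht X (by omega)
    have h4 := hX0 t ht X (by
      have := single_le_sum (f := X0) (fun _ _ => Nat.zero_le _) ht
      omega)
    have h5 : 0 < (Real.log ((X : ℝ) + 3)) ^ η t := Real.rpow_pos_of_pos (Real.log_pos (by
      have : (0 : ℝ) ≤ X := Nat.cast_nonneg _
      linarith)) _
    have h6 : (0 : ℝ) ≤ (X : ℝ) ^ 2 := by positivity
    have h7 := mul_le_mul_of_nonneg_right h4 h6
    have h8 : (Real.log ((X : ℝ) + 3)) ^ η t * (((Box X).filter (fun s : ℤ × ℤ =>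
        (IsCoprime s.1 s.2 ∧ ∀ j, fh f s.1 s.2 j ≠ 0) ∧
          ∏ j, t j ^ nV D z s.1 s.2 j < 1)).card : ℝ) ≤
        (Real.log ((X : ℝ) + 3)) ^ η t * (e / (T.card + 1) * (X : ℝ) ^ 2) := by
      refine h3.trans (h7.trans (le_of_eq ?_))
      ring
    exact le_of_mul_le_mul_left h8 h5
  refine (sum_le_sum h2).trans ?_
  rw [sum_const, nsmul_eq_mul]
  have h6 : (0 : ℝ) ≤ (X : ℝ) ^ 2 := by positivity
  have h7 : (T.card : ℝ) * (e / (T.card + 1)) ≤ e := by
    rw [mul_div_assoc', div_le_iff₀ (by positivity)]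
    nlinarith [(Nat.cast_nonneg T.card : (0 : ℝ) ≤ T.card)]
  calc (T.card : ℝ) * (e / (T.card + 1) * (X : ℝ) ^ 2) =
        (T.card : ℝ) * (e / (T.card + 1)) * (X : ℝ) ^ 2 := by ring
    _ ≤ e * (X : ℝ) ^ 2 := mul_le_mul_of_nonneg_right h7 h6

end

end Pool.Agent.K7.H54.GU
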