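import Pool.Agent.K7.H54.GT.Mdl2
import Pool.Agent.TH841.PM.Bas
import Pool.Agent.TH841.PM.Fin

/-!
# Project GU: the weights of the indices, `k` coordinates
-/

set_option autoImplicit false
set_option linter.all false

namespace Pool.Agent.K7.H54.GU

open Finset Polynomial Pool.Agent.W262.RK Pool.Agent.W307.RT Pool.Agent.TH841.PT
open Pool.Agent.R421.HF
open Pool.Agent.R421.UR
open Pool.Agent.TH841.PM
open Pool.Agent.K7.H54.HR Pool.Agent.K7.H54.GT
open Pool.Agent.K7.H54.SG (SFam)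
open Pool.Agent.TH344.DT (nn om Alt)

open Pool.Agent.H474R2.PG (rho)

/-- the bit of the class `3`, explicitly -/
def Fb (oa ob oc v1 v2 x1 x2 m s0 s1 s2 : Bool) : Bool :=
  let e0 := if oa = false then xor s0 s1 else s0
  let e1 := if oa = false then s1 else if ob = false then xor s0 s1
        else if oc = false then s0 else s1
  let e2 := if oa = false then xor m s1 else if ob = false then s0
        else if oc = false then xor m (xor s0 s2) else s2
  xor (xor (x1 && xor (v1 && !v2 && e0) (xor (!v1 && v2 && xor e0 e1)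
      (v1 && v2 && e1)))
    (x2 && xor (v1 && !v2 && xor e0 e2) (xor (!v1 && v2 && e0)
      (v1 && v2 && e2)))) ((x2 && v2) && m)

lemma Fb_lin : ∀ oa ob oc v1 v2 x1 x2 m s0 s1 s2 : Bool,
    Fb oa ob oc v1 v2 x1 x2 m s0 s1 s2 =
      xor (Fb oa ob oc v1 v2 x1 x2 true false false false && m)
        (xor (Fb oa ob oc v1 v2 x1 x2 false true false false && s0)
          (xor (Fb oa ob oc v1 v2 x1 x2 false false true false && s1)
            (Fb oa ob oc v1 v2 x1 x2 false false false true && s2))) := by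
  decide

/-- the bits of the class `3`, for one coordinate -/
lemma bitsK (oa ob oc : Bool) (v x : Bool × Bool) (m : Bool) (σ : Fin 3 → Bool) :
    xor (bt 3 (t3 oa ob oc m σ) v x) (Pool.Agent.TH841.PM.mt 3 v x && m) =
      xor (Fb oa ob oc v.1 v.2 x.1 x.2 true false false false && m)
        (xor (Fb oa ob oc v.1 v.2 x.1 x.2 false true false false && σ 0)
          (xor (Fb oa ob oc v.1 v.2 x.1 x.2 false false true false && σ 1)
            (Fb oa ob oc v.1 v.2 x.1 x.2 false false false true && σ 2))) := by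
  rw [← Fb_lin]
  have e0 : t3 oa ob oc m σ 0 = (if oa = false then xor (σ 0) (σ 1) else σ 0) := by
    unfold t3
    cases oa <;> cases ob <;> cases oc <;> simp
  have e1 : t3 oa ob oc m σ 1 = (if oa = false then σ 1 else if ob = false then xor (σ 0) (σ 1)
        else if oc = false then σ 0 else σ 1) := by
    unfold t3
    cases oa <;> cases ob <;> cases oc <;> simp
  have e2 : t3 oa ob oc m σ 2 = (if oa = false then xor m (σ 1) else if ob = false then σ 0
        else if oc = false then xor m (xor (σ 0) (σ 2)) else σ 2) := by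
    unfold t3
    cases oa <;> cases ob <;> cases oc <;> simp
  unfold bt Pool.Agent.TH841.PM.mt Fb
  rw [if_pos rfl, e0, e1, e2]
  simp only [decide_true, Bool.true_and]

section

variable {J : Type} [Fintype J] [DecidableEq J]

variable {cls : J → Fin 4} {a : Fin 3 → ℤ} {f : J → ℤ[X]} {ε : Fin 3 → J → ℕ} {m z c : ℕ} {k : ℕ}

/-- the weights with signs -/
noncomputable def aK (cls : J → Fin 4) (g : J × Ty → ℕ → ℝ) {k : ℕ} (i : IK4 cls k) (p : ℕ) : ℝ :=
  Jr (κK4 cls i) p * ∑ θ : Ty, wK cls i * ((if bK cls (fun _ => θ) i then -1 else 1) *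
    g (i.1.1, θ) p)

/-- the weights -/
noncomputable def bwq (cls : J → Fin 4) (g : J × Ty → ℕ → ℝ) {k : ℕ} (i : IK4 cls k)
    (p : ℕ) : ℝ := wK cls i * rs g i.1.1 p

lemma Jr_abs (x : ℤ) (n : ℕ) : |Jr x n| ≤ 1 := by
  unfold Jr
  rcases jacobiSym.trichotomy x n with h | h | h <;> rw [h] <;> norm_num

lemma aK_abs {g : J × Ty → ℕ → ℝ} (hg : ∀ i p, 0 ≤ g i p) (i : IK4 cls k) (p : ℕ) :
    |aK cls g i p| ≤ bwq cls g i p := by
  unfold aK bwq rs
  rw [abs_mul, ← mul_sum, abs_mul, abs_of_pos (wK_pos cls i)]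
  have h1 : |∑ θ : Ty, (if bK cls (fun _ => θ) i then (-1 : ℝ) else 1) * g (i.1.1, θ) p| ≤
      ∑ θ : Ty, g (i.1.1, θ) p := by
    refine (abs_sum_le_sum_abs _ _).trans (sum_le_sum fun θ _ => ?_)
    rw [abs_mul, abs_of_nonneg (hg _ _)]
    have : |(if bK cls (fun _ => θ) i then (-1 : ℝ) else 1)| ≤ 1 := by
      split_ifs <;> norm_num
    exact mul_le_of_le_one_left (hg _ _) this
  have h2 := Jr_abs (κK4 cls i) p
  have h3 := mul_le_mul_of_nonneg_left h1 (wK_pos cls i).le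
  have h4 : 0 ≤ wK cls i * |∑ θ : Ty, (if bK cls (fun _ => θ) i then (-1 : ℝ) else 1) *
      g (i.1.1, θ) p| := mul_nonneg (wK_pos cls i).le (abs_nonneg _)
  calc _ ≤ 1 * (wK cls i * |∑ θ : Ty, (if bK cls (fun _ => θ) i then (-1 : ℝ) else 1) *
      g (i.1.1, θ) p|) := mul_le_mul_of_nonneg_right h2 h4
    _ ≤ _ := by rw [one_mul]; exact h3

/-- the coefficients of the class `3` -/
lemma aK3 (h : HG cls a f ε m) (hG : ZZ a f z c) (i : IK4 cls k) (hi : cls i.1.1 = 3) :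
    ∃ G : ℤ[X], ¬ mQ (f i.1.1) ∣ mQ G ∧ ∀ p : ℕ, p.Prime → z < p →
      aK cls (famq cls a f ε m z c).g i p = wK cls i * rhoc (f i.1.1) G p := by
  obtain ⟨F, hF⟩ : ∃ F : Fin k → Bool → Bool → Bool → Bool → Bool, F = fun b => Fb
    (od (ε 0 i.1.1)) (od (ε 1 i.1.1)) (od (ε 2 i.1.1)) (i.1.2.1 b).1 (i.1.2.1 b).2
      (i.1.2.2 b).1 (i.1.2.2 b).2 := ⟨_, rfl⟩
  obtain ⟨Gb, hGb⟩ : ∃ Gb : Fin k → ℤ[X], Gb = fun b => G3 a f ε i.1.1
    (F b true false false false) (F b false true false false) (F b false false true false)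
    (F b false false false true) := ⟨_, rfl⟩
  refine ⟨∏ b, Gb b, ?_, fun p hp hz => ?_⟩
  · unfold mQ
    rw [Polynomial.map_prod]
    intro hd
    obtain ⟨b, _, hb⟩ := ((h.hf.irrQ i.1.1).prime.dvd_finsetProd_iff _).1 hd
    rw [hGb] at hb
    exact G3_ndvd h _ _ _ _ _ hb
  have hpi := Nat.prime_iff_prime_int.1 hp
  have hm1 : ¬ (p : ℤ) ∣ -1 := fun h => hpi.not_dvd_one ((dvd_neg).1 h)
  have hk : ∀ b : Bool, Jr (if b = true then -1 else 1) p = sb (b && sg0 p (-1)) := by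
    intro b
    cases b
    · simp [sb, Jr]
    · simp only [if_true, Bool.true_and]
      exact Jr_sb hp hm1
  unfold aK
  have hsum := sum_ty3 (a := a) (f := f) (z := z) (c := c) h hi hp hz
    (fun θ => if bK cls (fun _ => θ) i then (-1 : ℝ) else 1)
  rw [← mul_sum, hsum]
  unfold rhoc
  rw [mul_left_comm, mul_sum]
  congr 1
  refine sum_congr rfl fun x hx => ?_
  have hxd := (mem_filter.1 hx).2
  unfold bK
  rw [par_sign, κK4_eq, Pool.Agent.TH841.PM.Jr_prod_left, eval_prod,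
    Pool.Agent.TH841.PM.Jr_prod_left, ← prod_mul_distrib]
  refine prod_congr rfl fun b _ => ?_
  have hb' := bitsK (od (ε 0 i.1.1)) (od (ε 1 i.1.1)) (od (ε 2 i.1.1)) (i.1.2.1 b) (i.1.2.2 b)
    (sg0 p (-1)) (fun k => sg0 p ((CQ a f ε i.1.1 k).eval (x : ℤ)))
  beta_reduce at hb'
  rw [hGb]
  beta_reduce
  rw [G3_eval hG hp hz hxd, hk, hi, hF]
  beta_reduce
  rw [← hb', sb_xor, mul_comm]
  rfl

/-- the twisted sums -/
lemma twistK (hh1 : Pool.Agent.TH841.TR.H1L) (htw : TWG) (h : HG cls a f ε m) (hG : ZZ a f z c)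
    (k : ℕ) :
    ∃ z0 : ℕ, ∀ z', z0 ≤ z' → ∃ C0 E0 : ℝ, 0 ≤ C0 ∧ 0 ≤ E0 ∧
      ∀ (i : IK4 cls k) (y r : ℕ) (b : Bool), z' < y → 1 < r → Squarefree r →
        (∀ p : ℕ, p.Prime → p ∣ r → z' < p) →
        ∑ p ∈ PS z' y, aK cls (famq cls a f ε m z c).g i p * (Jr p r * x4 b p) / (p : ℝ) ≤
          E0 * Real.log (Real.log r) + C0 := by
  classical
  have hf := h.hf
  choose E1 t1 hE1 ht1 using fun j : J => htw (f j) (hf.irr j) (hf.deg j) (kk cls a f ε j)
    (h.ndvd j)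
  choose E2 t2 hE2 ht2 using fun j : J => htw (f j) (hf.irr j) (hf.deg j) 1 (by
    rw [Polynomial.map_one]
    exact fun hd => (hf.irrQ j).not_isUnit (isUnit_of_dvd_one hd))
  have hG3 : ∀ i : IK4 cls k, ∃ G : ℤ[X], ¬ mQ (f i.1.1) ∣ mQ G ∧ (cls i.1.1 = 3 →
      ∀ p : ℕ, p.Prime → z < p →
        aK cls (famq cls a f ε m z c).g i p = wK cls i * rhoc (f i.1.1) G p) := by
    intro i
    by_cases hi : cls i.1.1 = 3
    · obtain ⟨G, h1, h2⟩ := aK3 h hG i hi
      exact ⟨G, h1, fun _ => h2⟩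
    · refine ⟨1, ?_, fun h3 => absurd h3 hi⟩
      unfold mQ
      rw [Polynomial.map_one]
      exact fun hd => (hf.irrQ i.1.1).not_isUnit (isUnit_of_dvd_one hd)
  choose G hGn hGa using hG3
  choose E3 t6 hE3 ht6 using fun i : IK4 cls k => htw (f i.1.1) (hf.irr i.1.1) (hf.deg i.1.1)
    (G i) (hGn i)
  refine ⟨z + univ.sup t1 + univ.sup t2 + univ.sup t6 + 2, fun z' hz' => ?_⟩
  have l1 : ∀ j, t1 j ≤ z' := fun j => (le_sup (f := t1) (mem_univ j)).trans (by omega)
  have l2 : ∀ j, t2 j ≤ z' := fun j => (le_sup (f := t2) (mem_univ j)).trans (by omega)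
  have l6 : ∀ i, t6 i ≤ z' := fun i => (le_sup (f := t6) (mem_univ i)).trans (by omega)
  have hzz : z ≤ z' := by omega
  choose C1 hC1 using fun j : J => ht1 j z' (l1 j)
  choose C2 hC2 using fun j : J => ht2 j z' (l2 j)
  choose C6 hC6 using fun i : IK4 cls k => ht6 i z' (l6 i)
  set K0 : ℝ := ∑ j, (|C1 j| + |C2 j|) + ∑ i, |C6 i| with hK0
  have hK60 : 0 ≤ ∑ i, |C6 i| := sum_nonneg fun i _ => abs_nonneg _
  have hKs0 : 0 ≤ ∑ j, (|C1 j| + |C2 j|) := sum_nonneg fun j _ => by positivity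
  have hK : ∀ j, |C1 j| ≤ K0 ∧ |C2 j| ≤ K0 := fun j => by
    have := single_le_sum (f := fun j => |C1 j| + |C2 j|)
      (fun j _ => by positivity) (mem_univ j)
    have h1 := abs_nonneg (C1 j)
    have h2 := abs_nonneg (C2 j)
    constructor <;> linarith
  have hK6 : ∀ i, |C6 i| ≤ K0 := fun i => by
    have := single_le_sum (f := fun i => |C6 i|) (fun i _ => abs_nonneg _) (mem_univ i)
    linarith
  have hK00 : 0 ≤ K0 := by linarith
  set L0 : ℝ := ∑ j, (E1 j + E2 j) + ∑ i, E3 i with hL0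
  have hL60 : 0 ≤ ∑ i, E3 i := sum_nonneg fun i _ => hE3 i
  have hLs0 : 0 ≤ ∑ j, (E1 j + E2 j) := sum_nonneg fun j _ => add_nonneg (hE1 j) (hE2 j)
  have hL : ∀ j, E1 j ≤ L0 ∧ E2 j ≤ L0 := by
    intro j
    have h1 := single_le_sum (f := fun j => E1 j + E2 j)
      (fun j _ => add_nonneg (hE1 j) (hE2 j)) (mem_univ j)
    have h2 := hE1 j
    have h3 := hE2 j
    constructor <;> linarith
  have hL6 : ∀ i, E3 i ≤ L0 := fun i => by
    have := single_le_sum (f := fun i => E3 i) (fun i _ => hE3 i) (mem_univ i)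
    linarith
  have hL00 : 0 ≤ L0 := by linarith
  set g := (famq cls a f ε m z c).g with hg
  refine ⟨K0, L0, hK00, hL00, ?_⟩
  intro i y r b hy hr hsq hpr
  have hlr := Pool.Agent.TH841.PT.loglog_nonneg (by omega : 2 ≤ z') hr hpr
  have hB : 0 ≤ L0 * Real.log (Real.log r) + K0 := by positivity
  have h10 := mul_le_mul_of_nonneg_right (wK_le_one cls i) hB
  by_cases hc3 : cls i.1.1 = 3
  · have h1 : ∑ p ∈ PS z' y, aK cls g i p * (Jr p r * x4 b p) / (p : ℝ) =
        wK cls i * ∑ p ∈ PS z' y,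
          rhoc (f i.1.1) (G i) p * (Jr p r * x4 b p) / (p : ℝ) := by
      rw [mul_sum]
      refine sum_congr rfl fun p hp => ?_
      have hp' := mem_filter.1 hp
      have hzp := (mem_Ioc.1 hp'.1).1
      rw [hg, hGa i hc3 p hp'.2 (by omega)]
      ring
    have h2 := hC6 i y r b hy hr hsq hpr
    have h3 := mul_le_mul_of_nonneg_right (hL6 i) hlr
    have h4 : ∑ p ∈ PS z' y, rhoc (f i.1.1) (G i) p * (Jr p r * x4 b p) / (p : ℝ) ≤
        L0 * Real.log (Real.log r) + K0 := by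
      linarith [le_abs_self (C6 i), hK6 i]
    have h9 := mul_le_mul_of_nonneg_left h4 (wK_pos cls i).le
    rw [h1]
    linarith
  have hJ1 : ∀ p : ℕ, Jr 1 p = 1 := by
    intro p
    unfold Jr
    rw [jacobiSym.one_left]
    norm_num
  have hkm : κK4 cls i = 1 := by
    rw [κK4_eq]
    refine prod_eq_one fun b _ => ?_
    unfold Pool.Agent.TH841.PM.mt
    simp [hc3]
  obtain ⟨φ, hφ1, hφ2⟩ : ∃ φ : Bool → ℝ, (∀ p, aK cls g i p =
      wK cls i * ∑ θ : Ty, φ (θ 0) * g (i.1.1, θ) p) ∧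
      ((∀ x, φ x = 1) ∨ (∀ x, φ x = if x = true then -1 else 1)) := by
    obtain ⟨N, hN⟩ : ∃ N : ℕ, N = (univ.filter (fun b : Fin k =>
      (!(decide (i.1.2.1 b = (false, false))) && !(decide (i.1.2.2 b = (false, false)))) =
        true)).card := ⟨_, rfl⟩
    have hbt : ∀ θ : Ty, bK cls (fun _ => θ) i = (decide (N % 2 = 1) && θ 0) := by
      intro θ
      unfold bK bt
      simp only [if_neg hc3]
      cases hθ : θ 0
      · simp
      · simp only [Bool.and_true]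
        rw [hN]
    by_cases hN1 : N % 2 = 1
    · refine ⟨fun x => if x = true then -1 else 1, fun p => ?_, Or.inr fun _ => rfl⟩
      unfold aK
      rw [hkm, hJ1, one_mul, mul_sum]
      refine sum_congr rfl fun θ _ => ?_
      rw [hbt, decide_eq_true hN1, Bool.true_and]
    · refine ⟨fun _ => 1, fun p => ?_, Or.inl fun _ => rfl⟩
      unfold aK
      rw [hkm, hJ1, one_mul, mul_sum]
      refine sum_congr rfl fun θ _ => ?_
      rw [hbt, decide_eq_false hN1, Bool.false_and]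
      simp
  have hsum : ∑ p ∈ PS z' y, aK cls g i p * (Jr p r * x4 b p) / (p : ℝ) =
      wK cls i * (cA (eo ε i.1.1) φ * ∑ p ∈ PS z' y,
        (rho (f i.1.1) p : ℝ) * (Jr p r * x4 b p) / (p : ℝ) +
      cB (eo ε i.1.1) φ * ∑ p ∈ PS z' y,
        rhoc (f i.1.1) (kk cls a f ε i.1.1) p * (Jr p r * x4 b p) / (p : ℝ)) := by
    rw [← Sp_tyq h hG hc3 φ hzz, mul_sum]
    refine sum_congr rfl fun p _ => ?_
    rw [hφ1]
    ring
  have b1 : ∑ p ∈ PS z' y, (rho (f i.1.1) p : ℝ) * (Jr p r * x4 b p) / (p : ℝ) ≤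
      L0 * Real.log (Real.log r) + K0 := by
    have h1 := hC2 i.1.1 y r b hy hr hsq hpr
    have h2 : ∑ p ∈ PS z' y, (rho (f i.1.1) p : ℝ) * (Jr p r * x4 b p) / (p : ℝ) =
        ∑ p ∈ PS z' y, rhoc (f i.1.1) 1 p * (Jr p r * x4 b p) / (p : ℝ) := by
      refine sum_congr rfl fun p _ => ?_
      congr 2
      unfold rhoc rho
      simp [hJ1]
    rw [h2]
    have h3 := mul_le_mul_of_nonneg_right (hL i.1.1).2 hlr
    linarith [le_abs_self (C2 i.1.1), (hK i.1.1).2]
  have b2 : ∑ p ∈ PS z' y, rhoc (f i.1.1) (kk cls a f ε i.1.1) p *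
      (Jr p r * x4 b p) / (p : ℝ) ≤ L0 * Real.log (Real.log r) + K0 := by
    have h1 := hC1 i.1.1 y r b hy hr hsq hpr
    have h3 := mul_le_mul_of_nonneg_right (hL i.1.1).1 hlr
    linarith [le_abs_self (C1 i.1.1), (hK i.1.1).1]
  have hAB : 0 ≤ cA (eo ε i.1.1) φ ∧ 0 ≤ cB (eo ε i.1.1) φ ∧
      cA (eo ε i.1.1) φ + cB (eo ε i.1.1) φ ≤ 1 := by
    unfold cA cB
    rcases hφ2 with h1 | h1
    · rw [h1, h1]
      split_ifs <;> norm_num
    · have f0 : φ false = 1 := by rw [h1]; simp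
      have f1 : φ true = -1 := by rw [h1]; simp
      rw [f0, f1]
      split_ifs <;> norm_num
  rw [hsum]
  obtain ⟨a1, a2, a3⟩ := hAB
  have h5 := mul_le_mul_of_nonneg_left b1 a1
  have h6 := mul_le_mul_of_nonneg_left b2 a2
  have h7 : (cA (eo ε i.1.1) φ + cB (eo ε i.1.1) φ) * (L0 * Real.log (Real.log r) + K0) ≤
      1 * (L0 * Real.log (Real.log r) + K0) := mul_le_mul_of_nonneg_right a3 hB
  have h8 : cA (eo ε i.1.1) φ * ∑ p ∈ PS z' y,
        (rho (f i.1.1) p : ℝ) * (Jr p r * x4 b p) / (p : ℝ) +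
      cB (eo ε i.1.1) φ * ∑ p ∈ PS z' y,
        rhoc (f i.1.1) (kk cls a f ε i.1.1) p * (Jr p r * x4 b p) / (p : ℝ) ≤
      L0 * Real.log (Real.log r) + K0 := by linarith
  have h9 := mul_le_mul_of_nonneg_left h8 (wK_pos cls i).le
  linarith

end

end Pool.Agent.K7.H54.GU
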