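import Pool.Agent.TH841.PM.Cmb
import Pool.Agent.TH841.PM.Bas

/-!
# Project GU: the unlinked sets and the vectors, with weights of the indices
-/

set_option autoImplicit false
set_option linter.all false

namespace Pool.Agent.K7.H54.GU

open Finset Pool.Agent.W262.RK Pool.Agent.TH841.PT Pool.Agent.TH841.PM
open Pool.Agent.TH344.DT (nn om Alt)

/-- the inequality between the means -/
lemma amgm {n : ℕ} (hn : 1 ≤ n) (g : Fin n → ℝ) :
    (n : ℝ) * Real.exp ((∑ c, g c) / n) ≤ ∑ c, Real.exp (g c) := by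
  have hn0 : (0 : ℝ) < n := by exact_mod_cast hn
  have h1 := convexOn_exp.map_sum_le (t := (univ : Finset (Fin n))) (w := fun _ => (1 : ℝ) / n)
    (p := g) (fun _ _ => by positivity) (by
      rw [sum_const, card_univ, Fintype.card_fin, nsmul_eq_mul]
      field_simp) (fun _ _ => Set.mem_univ _)
  simp only [smul_eq_mul] at h1
  rw [← mul_sum, ← mul_sum] at h1
  have h2 := mul_le_mul_of_nonneg_left h1 hn0.le
  have e1 : (∑ c, g c) / n = 1 / (n : ℝ) * ∑ c, g c := by ring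
  rw [e1]
  refine h2.trans (le_of_eq ?_)
  field_simp

section

variable {J : Type} [Fintype J] [DecidableEq J]

/-- the indices with copies -/
abbrev JC (d : J → ℕ) : Type := Σ j : J, Fin (d j)

/-- the classes of the copies -/
def clC (cls : J → Fin 4) (d : J → ℕ) (x : JC d) : Fin 4 := cls x.1

/-- the projection -/
def prC (cls : J → Fin 4) (d : J → ℕ) {k : ℕ} (i : IK4 (clC cls d) k) : IK4 cls k :=
  ⟨(i.1.1.1, i.1.2), i.2⟩

/-- the lifts -/
def lfC (cls : J → Fin 4) (d : J → ℕ) {k : ℕ} (x : Σ i : IK4 cls k, Fin (d i.1.1)) :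
    IK4 (clC cls d) k := ⟨(⟨x.1.1.1, x.2⟩, x.1.1.2), x.1.2⟩

lemma sum_copies (cls : J → Fin 4) (d : J → ℕ) {k : ℕ} (U : Finset (IK4 cls k))
    (F : IK4 (clC cls d) k → ℝ) :
    ∑ i ∈ univ.filter (fun i : IK4 (clC cls d) k => prC cls d i ∈ U), F i =
      ∑ i ∈ U, ∑ c : Fin (d i.1.1), F (lfC cls d ⟨i, c⟩) := by
  have h0 : ∑ i ∈ U, ∑ c : Fin (d i.1.1), F (lfC cls d ⟨i, c⟩) =
      ∑ x ∈ U.sigma (fun i => (univ : Finset (Fin (d i.1.1)))), F (lfC cls d x) :=
    Finset.sum_sigma' U (fun i => (univ : Finset (Fin (d i.1.1))))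
      (fun i c => F (lfC cls d ⟨i, c⟩))
  rw [h0]
  refine sum_bij' (fun i _ => (⟨prC cls d i, i.1.1.2⟩ : Σ i : IK4 cls k, Fin (d i.1.1)))
    (fun x _ => lfC cls d x) ?_ ?_ ?_ ?_ ?_
  · intro i hi
    rw [mem_sigma]
    exact ⟨(mem_filter.1 hi).2, mem_univ _⟩
  · intro x hx
    rw [mem_sigma] at hx
    exact mem_filter.2 ⟨mem_univ _, hx.1⟩
  · intro i _
    rfl
  · intro x _
    rfl
  · intro i _
    rfl

/-- the means of the vectors -/
noncomputable def gmC (d : J → ℕ) (t : JC d → ℝ) (j : J) : ℝ :=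
  Real.exp ((∑ c : Fin (d j), Real.log (t ⟨j, c⟩)) / d j)

theorem cmbw (cls : J → Fin 4) (k : ℕ) (hk : 1 ≤ k) (d : J → ℕ) (hd : ∀ j, 1 ≤ d j)
    (hn : ∀ c : Fin 4, c ≠ 3 → 2 * ∑ j ∈ univ.filter (fun j => cls j = c), d j <
      ∑ j ∈ univ.filter (fun j => cls j ≠ 3), d j) :
    ∃ T : Finset (J → ℝ), (∀ t ∈ T, ∀ j, 0 < t j) ∧
      (∀ t ∈ T, 0 < ∑ j, (d j : ℝ) / 2 * Real.log (t j)) ∧
      ∀ U : Finset (IK4 cls k), (∀ i ∈ U, ∀ j ∈ U, LK4 cls i j = LK4 cls j i) →
        Alt (fun i : IK4 cls k => i.1.1) (fun i => wK cls i * ((d i.1.1 : ℝ) / 2)) (LK4 cls)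
          (∑ j, (d j : ℝ) / 2) T U := by
  classical
  have hcard : ∀ P : Fin 4 → Prop, [DecidablePred P] →
      (univ.filter (fun x : JC d => P (clC cls d x))).card =
        ∑ j ∈ univ.filter (fun j => P (cls j)), d j := by
    intro P _
    rw [card_filter, Fintype.sum_sigma, sum_filter]
    refine sum_congr rfl fun j _ => ?_
    unfold clC
    by_cases h : P (cls j)
    · simp [h]
    · simp [h]
  obtain ⟨T', hT1, hT2, hT3⟩ := CMBf.cmbk (JC d) (clC cls d) k hk (by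
    intro c hc
    rw [hcard (fun x => x = c), hcard (fun x => x ≠ 3)]
    exact hn c hc)
  have hd0 : ∀ j, (0 : ℝ) < d j := fun j => by exact_mod_cast hd j
  have hcardJ : (Fintype.card (JC d) : ℝ) = ∑ j, (d j : ℝ) := by
    rw [Fintype.card_sigma]
    push_cast
    simp
  have hsum2 : ∑ j, (d j : ℝ) / 2 = (Fintype.card (JC d) : ℝ) / 2 := by
    rw [hcardJ, sum_div]
  -- the comparison
  have hcomp : ∀ (t : JC d → ℝ) (θ : ℝ), (∀ x, 0 < t x) → ∀ j : J,
      (d j : ℝ) * gmC d t j ^ θ ≤ ∑ c : Fin (d j), t ⟨j, c⟩ ^ θ := by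
    intro t θ ht j
    have h1 := amgm (hd j) (fun c => θ * Real.log (t ⟨j, c⟩))
    have h2 : gmC d t j ^ θ = Real.exp ((∑ c : Fin (d j), θ * Real.log (t ⟨j, c⟩)) / d j) := by
      unfold gmC
      rw [← Real.exp_mul]
      congr 1
      rw [← mul_sum]
      ring
    rw [h2]
    refine h1.trans (le_of_eq ?_)
    refine sum_congr rfl fun c _ => ?_
    rw [Real.rpow_def_of_pos (ht _), mul_comm]
  have hsumU : ∀ (t : JC d → ℝ) (θ : ℝ), (∀ x, 0 < t x) → ∀ U : Finset (IK4 cls k),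
      ∑ i ∈ U, wK cls i * ((d i.1.1 : ℝ) / 2) * gmC d t i.1.1 ^ θ ≤
      1 / 2 * ∑ i ∈ univ.filter (fun i : IK4 (clC cls d) k => prC cls d i ∈ U),
        wK (clC cls d) i * t i.1.1 ^ θ := by
    intro t θ ht U
    rw [sum_copies, mul_sum]
    refine sum_le_sum fun i _ => ?_
    have h1 : ∑ c : Fin (d i.1.1), wK (clC cls d) (lfC cls d ⟨i, c⟩) *
        t (lfC cls d ⟨i, c⟩).1.1 ^ θ = wK cls i * ∑ c : Fin (d i.1.1), t ⟨i.1.1, c⟩ ^ θ := by
      rw [mul_sum]
      rfl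
    rw [h1]
    have h2 := mul_le_mul_of_nonneg_left (hcomp t θ ht i.1.1) (wK_pos cls i).le
    linarith
  refine ⟨T'.image (gmC d), ?_, ?_, ?_⟩
  · intro t ht j
    obtain ⟨t', _, rfl⟩ := mem_image.1 ht
    exact Real.exp_pos _
  · intro t ht
    obtain ⟨t', ht', rfl⟩ := mem_image.1 ht
    have h1 : ∀ j, (d j : ℝ) / 2 * Real.log (gmC d t' j) =
        (∑ c : Fin (d j), Real.log (t' ⟨j, c⟩)) / 2 := by
      intro j
      unfold gmC
      rw [Real.log_exp]
      have := hd0 j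
      field_simp
    rw [sum_congr rfl fun j _ => h1 j, ← sum_div]
    have h2 : ∑ j, ∑ c : Fin (d j), Real.log (t' ⟨j, c⟩) = Real.log (∏ x, t' x) := by
      rw [Real.log_prod (fun x _ => (hT1 t' ht' x).ne'), Fintype.sum_sigma]
    rw [h2]
    have := Real.log_pos (hT2 t' ht')
    linarith
  · intro U hU
    set U' := univ.filter (fun i : IK4 (clC cls d) k => prC cls d i ∈ U) with hU'
    have hlink : ∀ i j : IK4 (clC cls d) k, LK4 (clC cls d) i j =
        LK4 cls (prC cls d i) (prC cls d j) := fun i j => rfl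
    have h1 := hT3 U' (by
      intro i hi j hj
      rw [hlink, hlink]
      exact hU _ (mem_filter.1 hi).2 _ (mem_filter.1 hj).2)
    rcases h1 with ⟨t, ht, h2⟩ | ⟨h2, h3, h4⟩
    · left
      refine ⟨gmC d t, mem_image_of_mem _ ht, ?_⟩
      have h5 := hsumU t 1 (hT1 t ht) U
      simp only [Real.rpow_one] at h5
      rw [hsum2]
      linarith
    · right
      refine ⟨?_, ?_, ?_⟩
      · have h5 : ∑ i ∈ U, wK cls i * ((d i.1.1 : ℝ) / 2) =
            1 / 2 * ∑ i ∈ U', wK (clC cls d) i := by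
          rw [hU', sum_copies, mul_sum]
          refine sum_congr rfl fun i _ => ?_
          have h1 : ∑ c : Fin (d i.1.1), wK (clC cls d) (lfC cls d ⟨i, c⟩) =
              wK cls i * d i.1.1 := by
            have h6 : ∀ c : Fin (d i.1.1), wK (clC cls d) (lfC cls d ⟨i, c⟩) = wK cls i :=
              fun _ => rfl
            rw [sum_congr rfl fun c _ => h6 c, sum_const, card_univ, Fintype.card_fin,
              nsmul_eq_mul, mul_comm]
          rw [h1]
          ring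
        rw [h5, hsum2]
        linarith
      · intro t ht
        obtain ⟨t', ht', rfl⟩ := mem_image.1 ht
        obtain ⟨θ, hθ, h5⟩ := h3 t' ht'
        refine ⟨θ, hθ, ?_⟩
        have h6 := hsumU t' (-θ) (hT1 t' ht') U
        rw [hsum2]
        linarith
      · intro j hj
        obtain ⟨i, hi, hl⟩ := h4 (lfC cls d ⟨j, ⟨0, hd j.1.1⟩⟩) (fun h5 => hj (mem_filter.1 h5).2)
        exact ⟨prC cls d i, (mem_filter.1 hi).2, hl⟩

end

end Pool.Agent.K7.H54.GU
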