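import Mathlib

/-!
# Project GU: one exceptional set for all the moments
-/

set_option autoImplicit false
set_option linter.all false

namespace Pool.Agent.K7.H54.GU

open Finset

open Classical in
/-- **one exceptional set** -/
theorem dia {α : Type} (B : ℕ → Finset α) (hB : ∀ X Y, X ≤ Y → B X ⊆ B Y)
    (R : ℕ → α → ℝ) (hR : ∀ k t, 0 ≤ R k t) (P : ℕ → α → Prop)
    (h1 : ∀ k, ∀ e : ℝ, 0 < e → ∃ X0 : ℕ, ∀ X : ℕ, X0 ≤ X →
      (((B X).filter (fun t => P k t)).card : ℝ) ≤ e * (X : ℝ) ^ 2)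
    (h2 : ∀ k, ∃ C : ℝ, 0 ≤ C ∧ ∀ X : ℕ, 1 ≤ X →
      ∑ t ∈ (B X).filter (fun t => ¬ P k t), R k t ≤ C * (X : ℝ) ^ 2) :
    ∃ Z : α → Prop, (∀ e : ℝ, 0 < e → ∃ X0 : ℕ, ∀ X : ℕ, X0 ≤ X →
      (((B X).filter (fun t => Z t)).card : ℝ) ≤ e * (X : ℝ) ^ 2) ∧
      ∀ k, ∃ C : ℝ, 0 ≤ C ∧ ∀ X : ℕ, 1 ≤ X →
        ∑ t ∈ (B X).filter (fun t => ¬ Z t), R k t ≤ C * (X : ℝ) ^ 2 := by
  choose H0 hH0 using fun k : ℕ => h1 k ((1 / 2) ^ k) (by positivity)
  obtain ⟨H, hH⟩ : ∃ H : ℕ → ℕ, H = fun k => H0 k + k := ⟨_, rfl⟩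
  refine ⟨fun t => ∃ k, t ∉ B (H k) ∧ P k t, fun e he => ?_, fun k => ?_⟩
  · obtain ⟨K, hK⟩ : ∃ K : ℕ, (2 : ℝ) * (1 / 2) ^ K ≤ e / 2 := by
      obtain ⟨K, hK⟩ := exists_pow_lt_of_lt_one (show (0 : ℝ) < e / 4 by positivity)
        (show (1 / 2 : ℝ) < 1 by norm_num)
      exact ⟨K, by linarith⟩
    choose X1 hX1 using fun k : ℕ => h1 k (e / (2 * (K + 1))) (by positivity)
    refine ⟨∑ k ∈ range K, X1 k, fun X hX => ?_⟩
    have hsub : (B X).filter (fun t => ∃ k, t ∉ B (H k) ∧ P k t) ⊆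
        ((range K).biUnion fun k => (B X).filter (fun t => P k t)) ∪
          (((range X).filter (fun k => K ≤ k ∧ H k ≤ X)).biUnion
            fun k => (B X).filter (fun t => P k t)) := by
      intro t ht
      obtain ⟨h3, k, h4, h5⟩ := mem_filter.1 ht
      have h6 : H k < X := by
        by_contra h7
        exact h4 (hB X (H k) (by omega) h3)
      rw [mem_union, mem_biUnion, mem_biUnion]
      by_cases h7 : k < K
      · exact Or.inl ⟨k, mem_range.2 h7, mem_filter.2 ⟨h3, h5⟩⟩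
      · refine Or.inr ⟨k, mem_filter.2 ⟨mem_range.2 ?_, by omega, h6.le⟩, mem_filter.2 ⟨h3, h5⟩⟩
        have : k ≤ H k := by rw [hH]; exact Nat.le_add_left _ _
        omega
    have hX2 : (0 : ℝ) ≤ (X : ℝ) ^ 2 := by positivity
    have e1 : ((((range K).biUnion fun k => (B X).filter (fun t => P k t))).card : ℝ) ≤
        e / 2 * (X : ℝ) ^ 2 := by
      have h3 : ((((range K).biUnion fun k => (B X).filter (fun t => P k t))).card : ℝ) ≤
          ∑ k ∈ range K, (((B X).filter (fun t => P k t)).card : ℝ) := by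
        exact_mod_cast card_biUnion_le
      refine h3.trans ?_
      have h4 : ∀ k ∈ range K, (((B X).filter (fun t => P k t)).card : ℝ) ≤
          e / (2 * (K + 1)) * (X : ℝ) ^ 2 := fun k hk =>
        hX1 k X ((single_le_sum (f := X1) (fun _ _ => Nat.zero_le _) hk).trans hX)
      refine (sum_le_sum h4).trans ?_
      rw [sum_const, card_range, nsmul_eq_mul, ← mul_assoc]
      refine mul_le_mul_of_nonneg_right ?_ hX2
      rw [mul_div_assoc', div_le_div_iff₀ (by positivity) (by norm_num)]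
      nlinarith [(Nat.cast_nonneg K : (0 : ℝ) ≤ K)]
    have e2 : (((((range X).filter (fun k => K ≤ k ∧ H k ≤ X)).biUnion
        fun k => (B X).filter (fun t => P k t))).card : ℝ) ≤ e / 2 * (X : ℝ) ^ 2 := by
      have h3 : (((((range X).filter (fun k => K ≤ k ∧ H k ≤ X)).biUnion
          fun k => (B X).filter (fun t => P k t))).card : ℝ) ≤
          ∑ k ∈ (range X).filter (fun k => K ≤ k ∧ H k ≤ X),
            (((B X).filter (fun t => P k t)).card : ℝ) := by
        exact_mod_cast card_biUnion_le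
      refine h3.trans ?_
      have h4 : ∀ k ∈ (range X).filter (fun k => K ≤ k ∧ H k ≤ X),
          (((B X).filter (fun t => P k t)).card : ℝ) ≤ (1 / 2) ^ k * (X : ℝ) ^ 2 := by
        intro k hk
        obtain ⟨-, -, h5⟩ := mem_filter.1 hk
        refine hH0 k X (le_trans ?_ h5)
        rw [hH]
        exact Nat.le_add_right _ _
      refine (sum_le_sum h4).trans ?_
      rw [← sum_mul]
      refine mul_le_mul_of_nonneg_right (le_trans ?_ hK) hX2
      have h5 : (range X).filter (fun k => K ≤ k ∧ H k ≤ X) ⊆ (range X).image (fun k => K + k) := by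
        intro k hk
        obtain ⟨h6, h7, _⟩ := mem_filter.1 hk
        rw [mem_range] at h6
        exact mem_image.2 ⟨k - K, mem_range.2 (by omega), by omega⟩
      refine (sum_le_sum_of_subset_of_nonneg h5 fun _ _ _ => by positivity).trans ?_
      rw [sum_image (fun a _ b _ h => by omega)]
      have h6 : ∀ X : ℕ, ∑ k ∈ range X, (1 / 2 : ℝ) ^ (K + k) ≤ 2 * (1 / 2) ^ K := by
        intro X
        have h7 : ∑ k ∈ range X, (1 / 2 : ℝ) ^ (K + k) =
            (1 / 2) ^ K * (2 - 2 * (1 / 2) ^ X) := by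
          induction X with
          | zero => simp
          | succ n ih =>
            rw [sum_range_succ, ih, pow_add, pow_succ]
            ring
        rw [h7]
        have h8 : (0 : ℝ) < (1 / 2) ^ K := by positivity
        have h9 : (0 : ℝ) < (1 / 2) ^ X := by positivity
        nlinarith
      exact h6 X
    have h3 : (((B X).filter (fun t => ∃ k, t ∉ B (H k) ∧ P k t)).card : ℝ) ≤
        ((((range K).biUnion fun k => (B X).filter (fun t => P k t))).card : ℝ) +
        (((((range X).filter (fun k => K ≤ k ∧ H k ≤ X)).biUnion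
            fun k => (B X).filter (fun t => P k t))).card : ℝ) := by
      exact_mod_cast (card_le_card hsub).trans (card_union_le _ _)
    linarith
  · obtain ⟨C, hC0, hC⟩ := h2 k
    have hs : 0 ≤ ∑ t ∈ B (H k), R k t := sum_nonneg fun _ _ => hR _ _
    refine ⟨C + ∑ t ∈ B (H k), R k t, by linarith, fun X hX => ?_⟩
    have hX1 : (1 : ℝ) ≤ (X : ℝ) ^ 2 := one_le_pow₀ (by exact_mod_cast hX)
    have hsub : (B X).filter (fun t => ¬ ∃ k, t ∉ B (H k) ∧ P k t) ⊆
        (B X).filter (fun t => ¬ P k t) ∪ B (H k) := by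
      intro t ht
      obtain ⟨h3, h4⟩ := mem_filter.1 ht
      rw [mem_union]
      by_cases h5 : t ∈ B (H k)
      · exact Or.inr h5
      · refine Or.inl (mem_filter.2 ⟨h3, fun h6 => h4 ⟨k, h5, h6⟩⟩)
    have h3 := sum_le_sum_of_subset_of_nonneg (f := R k) hsub fun _ _ _ => hR _ _
    have h4 : ∑ t ∈ (B X).filter (fun t => ¬ P k t) ∪ B (H k), R k t ≤
        ∑ t ∈ (B X).filter (fun t => ¬ P k t), R k t + ∑ t ∈ B (H k), R k t := by
      rw [← sum_union_inter]
      exact le_add_of_nonneg_right (sum_nonneg fun _ _ => hR _ _)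
    have h5 := hC X hX
    nlinarith

end Pool.Agent.K7.H54.GU
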