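import Pool.Agent.K7.H54.GU.Cmb
import Pool.Agent.K7.H54.GU.Bad
import Pool.Agent.K7.H54.GU.Dia
import Pool.Agent.K7.H54.GT.Core

/-!
# Project GU: all the moments over the coprime pairs, outside of a set of density zero
-/

set_option autoImplicit false
set_option linter.all false

namespace Pool.Agent.K7.H54.GU

open Finset Polynomial Pool.Agent.W262.RK Pool.Agent.W307.RT Pool.Agent.TH841.PT
open Pool.Agent.R421.HF
open Pool.Agent.R421.UR
open Pool.Agent.TH841.PM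
open Pool.Agent.K7.H54.HR Pool.Agent.K7.H54.GT
open Pool.Agent.K7.H54.SG (SFam)
open Pool.Agent.W307.SE (SN SN_nonneg)
open Pool.Agent.TH344.JG.AvgJ (rjn rj1)

section

variable {J : Type} [Fintype J] [DecidableEq J]

variable {cls : J → Fin 4} {a : Fin 3 → ℤ} {f : J → ℤ[X]} {n : J → ℕ} {ε : Fin 3 → J → ℕ} {m : ℕ}
  {c : ℤ}

omit [Fintype J] [DecidableEq J] in
lemma sum_ite_card {α : Type} (S : Finset α) (P Q : α → Prop) [DecidablePred P]
    [DecidablePred Q] : ∑ t ∈ S.filter P, (if Q t then (1 : ℝ) else 0) =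
      ((S.filter (fun t => P t ∧ Q t)).card : ℝ) := by
  rw [← filter_filter, card_filter]
  push_cast
  rfl

/-- the change of the variables -/
def φc (c : ℤ) (t : ℤ × ℤ) : ℤ × ℤ := (t.2, t.1 - c * t.2)

lemma val_φ (h : PG cls a f n ε m) (hc : ∀ j, (f j).eval c ≠ 0) (t : ℤ × ℤ) (k : Fin 3) :
    UV a ε (fh (nf c f n) (φc c t).1 (φc c t).2) k = Ug a f n ε t.1 t.2 k := by
  rw [UV_nf h hc]
  unfold φc
  simp only
  congr 1
  ring

open Classical in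
/-- back to the original variables -/
lemma transS (h : PG cls a f n ε m) (hc : ∀ j, (f j).eval c ≠ 0) {F : ℤ × ℤ → ℝ}
    (hF0 : ∀ t, 0 ≤ F t) (T : ℕ) :
      ∑ t ∈ (Box T).filter (fun t : ℤ × ℤ => IsCoprime t.1 t.2 ∧
          ∀ j, hv (n j) (f j) t.1 t.2 ≠ 0), F (φc c t) ≤
      ∑ t ∈ (Box ((1 + c.natAbs) * T)).filter (fun t : ℤ × ℤ => IsCoprime t.1 t.2 ∧
        ∀ j, fh (nf c f n) t.1 t.2 j ≠ 0), F t := by
  have hφi : Function.Injective (φc c) := by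
    intro t t' htt
    unfold φc at htt
    rw [Prod.mk.injEq] at htt
    refine Prod.ext ?_ htt.1
    have := htt.2
    rw [htt.1] at this
    linarith
  have hkey : ∀ t : ℤ × ℤ, (φc c t).2 + c * (φc c t).1 = t.1 ∧ (φc c t).1 = t.2 := by
    intro t
    unfold φc
    exact ⟨by ring, rfl⟩
  have hsub : ((Box T).filter (fun t : ℤ × ℤ => IsCoprime t.1 t.2 ∧
      ∀ j, hv (n j) (f j) t.1 t.2 ≠ 0)).image (φc c) ⊆
      (Box ((1 + c.natAbs) * T)).filter (fun t : ℤ × ℤ => IsCoprime t.1 t.2 ∧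
        ∀ j, fh (nf c f n) t.1 t.2 j ≠ 0) := by
    intro s hs
    obtain ⟨t, ht, rfl⟩ := mem_image.1 hs
    have h2 := mem_Box.1 (mem_filter.1 ht).1
    have h2' := (mem_filter.1 ht).2
    rw [mem_filter]
    refine ⟨?_, ?_, ?_⟩
    · rw [mem_Box]
      unfold φc
      have h3 : (t.1 - c * t.2).natAbs ≤ t.1.natAbs + c.natAbs * t.2.natAbs := by
        rw [← Int.natAbs_mul]
        exact Int.natAbs_sub_le _ _
      have h4 : c.natAbs * t.2.natAbs ≤ c.natAbs * T := Nat.mul_le_mul_left _ h2.2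
      constructor
      · exact h2.2.trans (Nat.le_mul_of_pos_left T (by omega))
      · refine h3.trans ((add_le_add h2.1 h4).trans (le_of_eq ?_))
        ring
    · unfold φc
      simp only
      have h3 : IsCoprime t.2 t.1 := h2'.1.symm
      have h4 : t.1 - c * t.2 = t.1 + (-c) * t.2 := by ring
      rw [h4]
      exact h3.add_mul_right_right _
    · intro j
      have h3 : fh (nf c f n) (φc c t).1 (φc c t).2 j = hv (n j) (f j) t.1 t.2 := by
        unfold fh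
        rw [ng_deg h hc]
        unfold nf
        rw [hv_mob (h.ndeg j), (hkey t).1, (hkey t).2]
      rw [h3]
      exact h2'.2 j
  have h1 := sum_le_sum_of_subset_of_nonneg (f := F) hsub (fun t _ _ => hF0 t)
  rw [sum_image (fun _ _ _ _ h => hφi h)] at h1
  exact h1

open Classical in
/-- the pairs -/
noncomputable def BP (f : J → ℤ[X]) (n : J → ℕ) (T : ℕ) : Finset (ℤ × ℤ) :=
  (Box T).filter (fun t : ℤ × ℤ => IsCoprime t.1 t.2 ∧ ∀ j, hv (n j) (f j) t.1 t.2 ≠ 0)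

lemma BP_mono (f : J → ℤ[X]) (n : J → ℕ) (X Y : ℕ) (h : X ≤ Y) : BP f n X ⊆ BP f n Y := by
  classical
  intro t ht
  unfold BP at ht ⊢
  obtain ⟨h1, h2⟩ := mem_filter.1 ht
  rw [mem_Box] at h1
  exact mem_filter.2 ⟨mem_Box.2 ⟨h1.1.trans h, h1.2.trans h⟩, h2⟩

open Classical in
/-- **one moment outside of a set** -/
theorem coreK (h : PG cls a f n ε m) (sp : J → Bool)
    (hsp : ∀ j, cls j ≠ 3 → (sp j = true ↔ SqG cls a f ε m j))
    (hw : ∀ k : Fin 4, k ≠ 3 → 2 * Wc cls (ddq cls ε sp) k < Wo cls (ddq cls ε sp)) :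
    ∃ k1 : ℕ, ∀ k0 : ℕ, k1 ≤ k0 → ∃ P : ℤ × ℤ → Prop,
      (∀ e : ℝ, 0 < e → ∃ X0 : ℕ, ∀ X : ℕ, X0 ≤ X →
        (((BP f n X).filter (fun t => P t)).card : ℝ) ≤ e * (X : ℝ) ^ 2) ∧
      ∃ C : ℝ, 0 ≤ C ∧ ∀ X : ℕ, 1 ≤ X → ∑ t ∈ (BP f n X).filter (fun t => ¬ P t),
        SN (Ug a f n ε t.1 t.2 0) (Ug a f n ε t.1 t.2 1) ^ k0 ≤ C * (X : ℝ) ^ 2 := by
  obtain ⟨c, hc⟩ := h.exists_c
  have hH := ng_HG h hc
  obtain ⟨z1, hz1⟩ := exists_ZZ GDPf.gdp hH.hf h.ha ((∏ j, nf c f n j).natDegree + 1) le_rfl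
  have hG := hz1 z1 le_rfl
  obtain ⟨cc, hcc⟩ : ∃ cc : ℕ, cc = (∏ j, nf c f n j).natDegree + 1 := ⟨_, rfl⟩
  rw [← hcc] at hG
  have hsp1 : ∀ j, cls j ≠ 3 → sp j = false →
      NSqg (nf c f n j) (KQ cls a (nf c f n) ε j) 1 := by
    intro j h3 hj q hq
    have h1 : SqG cls a f ε m j := (SqG_iff h hc j).2 ⟨q, by simpa using hq⟩
    rw [← hsp j h3, hj] at h1
    exact Bool.false_ne_true h1
  have hsp2 : ∀ j, cls j ≠ 3 → sp j = true →
      ∃ q : ℚ[X], mQ (nf c f n j) ∣ q ^ 2 - mQ (KQ cls a (nf c f n) ε j) :=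
    fun j h3 hj => (SqG_iff h hc j).1 ((hsp j h3).1 hj)
  obtain ⟨d, hd⟩ : ∃ d : J → ℕ, d = fun j =>
    if cls j = 3 ∨ Odd (eo ε j) ∨ sp j = true then 2 else 1 := ⟨_, rfl⟩
  have hd2 : ∀ j, (d j : ℝ) / 2 = ddq cls ε sp j := by
    intro j
    rw [hd]
    unfold ddq
    beta_reduce
    split_ifs <;> norm_num
  have hd1 : ∀ j, 1 ≤ d j := by
    intro j
    rw [hd]
    beta_reduce
    split_ifs <;> norm_num
  have hn : ∀ k : Fin 4, k ≠ 3 → 2 * ∑ j ∈ univ.filter (fun j => cls j = k), d j <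
      ∑ j ∈ univ.filter (fun j => cls j ≠ 3), d j := by
    intro k hk
    have h1 := hw k hk
    unfold Wc Wo at h1
    have e1 : ∀ S : Finset J, ∑ j ∈ S, ddq cls ε sp j = (∑ j ∈ S, (d j : ℝ)) / 2 := by
      intro S
      rw [sum_div]
      exact sum_congr rfl fun j _ => (hd2 j).symm
    rw [e1, e1] at h1
    have h2 : (2 * ∑ j ∈ univ.filter (fun j => cls j = k), (d j : ℝ)) <
        ∑ j ∈ univ.filter (fun j => cls j ≠ 3), (d j : ℝ) := by linarith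
    exact_mod_cast h2
  refine ⟨2 * cc + 1, fun k0 hk0 => ?_⟩
  have hck : 2 * cc ≤ 2 ^ k0 := by
    have : k0 < 2 ^ k0 := Nat.lt_two_pow_self
    omega
  obtain ⟨T, hT, hT2, hU⟩ := cmbw cls k0 (by omega) d hd1 hn
  have hmk := makQ hH hG sp hsp1 hsp2 k0 hck d hd2 T hT hU
  obtain ⟨za, hza⟩ := avgW hH hG k0 hT hmk
  obtain ⟨zb, hzb⟩ := badQ hH hG sp hsp1 hsp2 T hT (by
    intro t ht
    have h1 := hT2 t ht
    have e1 : ∑ j, (d j : ℝ) / 2 * Real.log (t j) = ∑ j, ddq cls ε sp j * Real.log (t j) :=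
      sum_congr rfl fun j _ => by rw [hd2]
    rwa [e1] at h1)
  obtain ⟨z, hz⟩ : ∃ z : ℕ, z = za + zb := ⟨_, rfl⟩
  obtain ⟨C, hC0, hC⟩ := hza z (by omega)
  have hbad := hzb z (by omega)
  set D := famq cls a (nf c f n) ε m z1 cc with hD
  refine ⟨fun t => wt T (nV D z (φc c t).1 (φc c t).2) < 1, fun e he => ?_, ?_⟩
  · have hq : (0 : ℝ) < (((1 + c.natAbs : ℕ)) : ℝ) ^ 2 := by positivity
    obtain ⟨X0, hX0⟩ := hbad (e / (((1 + c.natAbs : ℕ)) : ℝ) ^ 2) (by positivity)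
    refine ⟨X0, fun X hX => ?_⟩
    have h1 := transS h hc (F := fun t => if wt T (nV D z t.1 t.2) < 1 then (1 : ℝ) else 0)
      (fun t => by split_ifs <;> norm_num) X
    have e1 : (((BP f n X).filter (fun t => wt T (nV D z (φc c t).1 (φc c t).2) < 1)).card : ℝ) =
        ∑ t ∈ (Box X).filter (fun t : ℤ × ℤ => IsCoprime t.1 t.2 ∧
          ∀ j, hv (n j) (f j) t.1 t.2 ≠ 0),
            (if wt T (nV D z (φc c t).1 (φc c t).2) < 1 then (1 : ℝ) else 0) := by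
      rw [card_filter]
      push_cast
      rfl
    rw [e1]
    refine h1.trans ?_
    have h2 := hX0 ((1 + c.natAbs) * X) (le_trans hX (Nat.le_mul_of_pos_left X (by omega)))
    have e2 : ∑ t ∈ (Box ((1 + c.natAbs) * X)).filter (fun t : ℤ × ℤ => IsCoprime t.1 t.2 ∧
        ∀ j, fh (nf c f n) t.1 t.2 j ≠ 0),
          (if wt T (nV D z t.1 t.2) < 1 then (1 : ℝ) else 0) =
        (((Box ((1 + c.natAbs) * X)).filter (fun t : ℤ × ℤ => (IsCoprime t.1 t.2 ∧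
          ∀ j, fh (nf c f n) t.1 t.2 j ≠ 0) ∧ wt T (nV D z t.1 t.2) < 1)).card : ℝ) := by
      exact sum_ite_card _ _ _
    rw [e2]
    refine h2.trans (le_of_eq ?_)
    push_cast
    field_simp
  · refine ⟨C * (((1 + c.natAbs : ℕ)) : ℝ) ^ 2, by positivity, fun X hX => ?_⟩
    have h1 := transS h hc (F := fun t =>
      SN (UV a ε (fh (nf c f n) t.1 t.2) 0) (UV a ε (fh (nf c f n) t.1 t.2) 1) ^ k0 *
          wt T (nV D z t.1 t.2)) (fun t => mul_nonneg (pow_nonneg (SN_nonneg _ _) _) (rjn hT _)) X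
    have h2 := hC ((1 + c.natAbs) * X) (Nat.mul_pos (by omega) hX)
    have h3 : ∑ t ∈ (BP f n X).filter (fun t => ¬ wt T (nV D z (φc c t).1 (φc c t).2) < 1),
        SN (Ug a f n ε t.1 t.2 0) (Ug a f n ε t.1 t.2 1) ^ k0 ≤
        ∑ t ∈ (Box X).filter (fun t : ℤ × ℤ => IsCoprime t.1 t.2 ∧
          ∀ j, hv (n j) (f j) t.1 t.2 ≠ 0),
          SN (UV a ε (fh (nf c f n) (φc c t).1 (φc c t).2) 0)
            (UV a ε (fh (nf c f n) (φc c t).1 (φc c t).2) 1) ^ k0 *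
              wt T (nV D z (φc c t).1 (φc c t).2) := by
      have h4 : ∀ t ∈ (BP f n X).filter
          (fun t => ¬ wt T (nV D z (φc c t).1 (φc c t).2) < 1),
          SN (Ug a f n ε t.1 t.2 0) (Ug a f n ε t.1 t.2 1) ^ k0 ≤
          SN (UV a ε (fh (nf c f n) (φc c t).1 (φc c t).2) 0)
            (UV a ε (fh (nf c f n) (φc c t).1 (φc c t).2) 1) ^ k0 *
              wt T (nV D z (φc c t).1 (φc c t).2) := by
        intro t ht
        have h5 := (mem_filter.1 ht).2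
        rw [val_φ h hc, val_φ h hc]
        exact le_mul_of_one_le_right (pow_nonneg (SN_nonneg _ _) _) (not_lt.1 h5)
      refine (sum_le_sum h4).trans ?_
      refine sum_le_sum_of_subset_of_nonneg (filter_subset _ _) fun t _ _ =>
        mul_nonneg (pow_nonneg (SN_nonneg _ _) _) (rjn hT _)
    refine h3.trans (h1.trans (h2.trans (le_of_eq ?_)))
    push_cast
    ring

lemma BP_card (f : J → ℤ[X]) (n : J → ℕ) {X : ℕ} (hX : 1 ≤ X) :
    ((BP f n X).card : ℝ) ≤ 9 * (X : ℝ) ^ 2 := by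
  classical
  have h1 : BP f n X ⊆ Icc (-(X : ℤ)) X ×ˢ Icc (-(X : ℤ)) X := by
    intro t ht
    unfold BP at ht
    have h2 := mem_Box.1 (mem_filter.1 ht).1
    rw [mem_product, mem_Icc, mem_Icc]
    omega
  have h2 := card_le_card h1
  rw [card_product, Int.card_Icc] at h2
  have h3 : ((X : ℤ) + 1 - -(X : ℤ)).toNat = 2 * X + 1 := by omega
  rw [h3] at h2
  have h4 : (2 * X + 1) * (2 * X + 1) ≤ 9 * X ^ 2 := by nlinarith
  exact_mod_cast h2.trans h4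

open Classical in
/-- **all the moments outside of a set of density zero** -/
theorem coreZ (h : PG cls a f n ε m) (sp : J → Bool)
    (hsp : ∀ j, cls j ≠ 3 → (sp j = true ↔ SqG cls a f ε m j))
    (hw : ∀ k : Fin 4, k ≠ 3 → 2 * Wc cls (ddq cls ε sp) k < Wo cls (ddq cls ε sp)) :
    ∃ Z : ℤ × ℤ → Prop,
      (∀ e : ℝ, 0 < e → ∃ X0 : ℕ, ∀ X : ℕ, X0 ≤ X →
        (((BP f n X).filter (fun t => Z t)).card : ℝ) ≤ e * (X : ℝ) ^ 2) ∧
      ∀ s : ℝ, 0 ≤ s → ∃ C : ℝ, 0 ≤ C ∧ ∀ X : ℕ, 1 ≤ X →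
        ∑ t ∈ (BP f n X).filter (fun t => ¬ Z t),
          SN (Ug a f n ε t.1 t.2 0) (Ug a f n ε t.1 t.2 1) ^ s ≤ C * (X : ℝ) ^ 2 := by
  obtain ⟨k1, hk1⟩ := coreK h sp hsp hw
  choose P hP1 hP2 using fun k : ℕ => hk1 (k1 + k) (by omega)
  obtain ⟨Z, hZ1, hZ2⟩ := dia (BP f n) (BP_mono f n)
    (fun k t => SN (Ug a f n ε t.1 t.2 0) (Ug a f n ε t.1 t.2 1) ^ (k1 + k))
    (fun k t => pow_nonneg (SN_nonneg _ _) _) P hP1 hP2
  refine ⟨Z, hZ1, fun s hs => ?_⟩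
  obtain ⟨k, hk⟩ := exists_nat_ge s
  obtain ⟨C, hC0, hC⟩ := hZ2 k
  refine ⟨9 + C, by linarith, fun X hX => ?_⟩
  have h1 : ∀ t ∈ (BP f n X).filter (fun t => ¬ Z t),
      SN (Ug a f n ε t.1 t.2 0) (Ug a f n ε t.1 t.2 1) ^ s ≤
        1 + SN (Ug a f n ε t.1 t.2 0) (Ug a f n ε t.1 t.2 1) ^ (k1 + k) := by
    intro t _
    have h0 := SN_nonneg (Ug a f n ε t.1 t.2 0) (Ug a f n ε t.1 t.2 1)
    generalize SN (Ug a f n ε t.1 t.2 0) (Ug a f n ε t.1 t.2 1) = x at h0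
    rcases le_total x 1 with h2 | h2
    · have h3 := Real.rpow_le_one h0 h2 hs
      have h4 : 0 ≤ x ^ (k1 + k) := pow_nonneg h0 _
      linarith
    · have h3 : x ^ s ≤ x ^ ((k1 + k : ℕ) : ℝ) := by
        apply Real.rpow_le_rpow_of_exponent_le h2
        push_cast
        have : (0 : ℝ) ≤ k1 := Nat.cast_nonneg _
        linarith
      rw [Real.rpow_natCast] at h3
      linarith
  refine (sum_le_sum h1).trans ?_
  rw [sum_add_distrib, sum_const, nsmul_eq_mul, mul_one]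
  have h2 := hC X hX
  have h3 := BP_card f n hX
  have h4 : (((BP f n X).filter (fun t => ¬ Z t)).card : ℝ) ≤ ((BP f n X).card : ℝ) := by
    exact_mod_cast card_le_card (filter_subset _ _)
  linarith

end

end Pool.Agent.K7.H54.GU
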