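import Pool.Agent.K7.H54.GU.Core
import Pool.Agent.K7.H54.GT.Fin

/-!
# Project GU: the rational parameters
-/

set_option autoImplicit false
set_option linter.all false

namespace Pool.Agent.K7.H54.GU

open Finset Polynomial UniqueFactorizationMonoid Pool.Agent.W262.RK Pool.Agent.W307.RT
open Pool.Agent.TH841.PT
open Pool.Agent.R421.HF
open Pool.Agent.R421.UR
open Pool.Agent.K7.H54.HR Pool.Agent.K7.H54.GT
open Pool.Agent.W307.SE (SN SN_nonneg)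
open Pool.Agent.TH841.SH.D (ShaTor HasDiv rk)

variable {D : ℤ[X]} {u : Fin 3 → ℤ[X]}

/-- the parameters of height at most `T` with a nonsingular fibre -/
def Prm (D : ℤ[X]) (u : Fin 3 → ℤ[X]) (T : ℕ) (t : ℚ) : Prop :=
  t.num.natAbs ≤ T ∧ t.den ≤ T ∧ vl D t ≠ 0 ∧ ∀ k, vl (u k) t ≠ 0

open Classical in
/-- **all the moments over the rational parameters outside of a set of density zero** -/
theorem mainT (h : HZ D u) (hs : ∀ k, 2 * dZ D u k < dZ D u 0 + dZ D u 1 + dZ D u 2) :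
    ∃ Z : Set ℚ,
      (∀ e : ℝ, 0 < e → ∃ T0 : ℕ, ∀ T : ℕ, T0 ≤ T → ∀ S : Finset ℚ,
        (∀ t ∈ S, t ∈ Z ∧ Prm D u T t) → (S.card : ℝ) ≤ e * (T : ℝ) ^ 2) ∧
      ∀ s : ℝ, 0 ≤ s → ∃ C : ℝ, 0 ≤ C ∧ ∀ T : ℕ, 1 ≤ T → ∀ S : Finset ℚ,
        (∀ t ∈ S, t ∉ Z ∧ Prm D u T t) →
        (∀ t ∈ S, ∀ k : ℕ, Finite (ShaTor (FtZ D u t) (2 ^ k))) ∧
        (∀ k : ℕ, 1 ≤ k → ∑ t ∈ S, ((2 : ℝ) ^ rk (FtZ D u t) *
          (Nat.card (ShaTor (FtZ D u t) (2 ^ k)) : ℝ) ^ ((1 : ℝ) / k)) ^ s ≤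
            C * (T : ℝ) ^ 2) ∧
        ∀ r q : ℕ, ((S.filter (fun t => r ≤ rk (FtZ D u t) ∧
          HasDiv (FtZ D u t) q)).card : ℝ) ≤ C * (T : ℝ) ^ 2 / (2 : ℝ) ^ (s * (r + q)) := by
  obtain ⟨a, ha, hq⟩ := h.uq
  have hp := h.pg ha hq
  have hsp : ∀ j, cK D u j ≠ 3 → (spK D u a j = true ↔
      SqG (cK D u) a (fK D u) (eK D u) (mm D u) j) := by
    intro j _
    unfold spK
    exact decide_eq_true_iff
  have hw : ∀ k : Fin 4, k ≠ 3 → 2 * Wc (cK D u) (ddq (cK D u) (eK D u) (spK D u a)) k <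
      Wo (cK D u) (ddq (cK D u) (eK D u) (spK D u a)) := by
    intro k hk
    obtain ⟨l, rfl⟩ : ∃ l : Fin 3, l.castSucc = k := by
      revert k
      decide
    rw [Wo_eq]
    have e0 := h.Wc_d hq 0
    have e1 := h.Wc_d hq 1
    have e2 := h.Wc_d hq 2
    have e3 := h.Wc_d hq l
    have e5 := hs l
    have c0 : (Fin.castSucc (0 : Fin 3)) = (0 : Fin 4) := rfl
    have c1 : (Fin.castSucc (1 : Fin 3)) = (1 : Fin 4) := rfl
    have c2 : (Fin.castSucc (2 : Fin 3)) = (2 : Fin 4) := rfl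
    rw [c0] at e0
    rw [c1] at e1
    rw [c2] at e2
    rw [e0, e1, e2, e3]
    linarith
  obtain ⟨Z, hZ1, hZ2⟩ := coreZ hp (spK D u a) hsp hw
  obtain ⟨φ, hφ⟩ : ∃ φ : ℚ → ℤ × ℤ, ∀ t, φ t = (t.num, (t.den : ℤ)) := ⟨_, fun t => rfl⟩
  have hφi : Function.Injective φ := by
    intro t t' htt
    rw [hφ, hφ, Prod.mk.injEq] at htt
    exact Rat.ext htt.1 (by exact_mod_cast htt.2)
  refine ⟨{t | Z (φ t)}, fun e he => ?_, fun s hs0 => ?_⟩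
  · obtain ⟨T0, hT0⟩ := hZ1 e he
    refine ⟨T0, fun T hT S hS => ?_⟩
    refine le_trans ?_ (hT0 T hT)
    have h2 := h.img T S (fun t ht => (hS t ht).2) φ hφ
    rw [← card_image_of_injective S hφi]
    have h3 : S.image φ ⊆ (BP (fK D u) (nK D u) T).filter (fun t => Z t) := by
      intro x hx
      obtain ⟨t, ht, rfl⟩ := mem_image.1 hx
      exact mem_filter.2 ⟨h2 hx, (hS t ht).1⟩
    exact_mod_cast card_le_card h3
  · obtain ⟨C, hC0, hC⟩ := hZ2 s hs0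
    refine ⟨C, hC0, fun T hT S hS => ?_⟩
    refine familyA S (fun t => FtZ D u t)
      (fun t => SN (Ug a (fK D u) (nK D u) (eK D u) t.num (t.den : ℤ) 0)
        (Ug a (fK D u) (nK D u) (eK D u) t.num (t.den : ℤ) 1)) _ hs0
      (fun t ht => h.bd ha hq t (hS t ht).2.2.2.1 (hS t ht).2.2.2.2) ?_
    have h1 := hC T hT
    refine le_trans ?_ h1
    have h2 := h.img T S (fun t ht => (hS t ht).2) φ hφ
    have h3 : S.image φ ⊆ (BP (fK D u) (nK D u) T).filter (fun t => ¬ Z t) := by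
      intro x hx
      obtain ⟨t, ht, rfl⟩ := mem_image.1 hx
      exact mem_filter.2 ⟨h2 hx, (hS t ht).1⟩
    have h4 := sum_le_sum_of_subset_of_nonneg (f := fun t : ℤ × ℤ =>
      SN (Ug a (fK D u) (nK D u) (eK D u) t.1 t.2 0)
        (Ug a (fK D u) (nK D u) (eK D u) t.1 t.2 1) ^ s) h3
      fun t _ _ => Real.rpow_nonneg (SN_nonneg _ _) _
    refine le_trans (le_of_eq ?_) h4
    rw [sum_image fun _ _ _ _ hh => hφi hh]
    refine sum_congr rfl fun t _ => ?_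
    simp only [hφ]

open Classical in
/-- **with the tails** -/
theorem mainT2 (h : HZ D u) (hs : ∀ k, 2 * dZ D u k < dZ D u 0 + dZ D u 1 + dZ D u 2) :
    (∃ Z : Set ℚ,
      (∀ e : ℝ, 0 < e → ∃ T0 : ℕ, ∀ T : ℕ, T0 ≤ T → ∀ S : Finset ℚ,
        (∀ t ∈ S, t ∈ Z ∧ Prm D u T t) → (S.card : ℝ) ≤ e * (T : ℝ) ^ 2) ∧
      ∀ s : ℝ, 0 ≤ s → ∃ C : ℝ, ∀ T : ℕ, 1 ≤ T → ∀ S : Finset ℚ,
        (∀ t ∈ S, t ∉ Z ∧ Prm D u T t) →
        (∀ t ∈ S, ∀ k : ℕ, Finite (ShaTor (FtZ D u t) (2 ^ k))) ∧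
        ∀ k : ℕ, 1 ≤ k → ∑ t ∈ S, ((2 : ℝ) ^ rk (FtZ D u t) *
          (Nat.card (ShaTor (FtZ D u t) (2 ^ k)) : ℝ) ^ ((1 : ℝ) / k)) ^ s ≤
            C * (T : ℝ) ^ 2) ∧
    ∀ A : ℝ, 0 < A → ∃ r0 : ℕ, ∀ r q : ℕ, r0 ≤ r + q → ∃ T0 : ℕ, ∀ T : ℕ, T0 ≤ T →
      ∀ S : Finset ℚ, (∀ t ∈ S, Prm D u T t ∧ r ≤ rk (FtZ D u t) ∧ HasDiv (FtZ D u t) q) →
        (S.card : ℝ) ≤ (T : ℝ) ^ 2 / A ^ (r + q) := by
  obtain ⟨Z, hZ1, hZ2⟩ := mainT h hs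
  refine ⟨⟨Z, hZ1, fun s hs0 => ?_⟩, fun A hA => ?_⟩
  · obtain ⟨C, _, hC⟩ := hZ2 s hs0
    exact ⟨C, fun T hT S hS => ⟨(hC T hT S hS).1, (hC T hT S hS).2.1⟩⟩
  · -- the exponent
    obtain ⟨s, hs0, hsA⟩ : ∃ s : ℝ, 0 ≤ s ∧ 2 * A ≤ (2 : ℝ) ^ s := by
      obtain ⟨n, hn⟩ := pow_unbounded_of_one_lt (2 * A) (show (1 : ℝ) < 2 by norm_num)
      exact ⟨n, Nat.cast_nonneg _, by rw [Real.rpow_natCast]; exact hn.le⟩
    obtain ⟨C, hC0, hC⟩ := hZ2 s hs0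
    obtain ⟨r0, hr0⟩ : ∃ r0 : ℕ, 2 * C ≤ 2 ^ r0 := by
      obtain ⟨n, hn⟩ := pow_unbounded_of_one_lt (2 * C) (show (1 : ℝ) < 2 by norm_num)
      exact ⟨n, hn.le⟩
    refine ⟨r0, fun r q hrq => ?_⟩
    have hAn : 0 < A ^ (r + q) := by positivity
    obtain ⟨T0, hT0⟩ := hZ1 (1 / (2 * A ^ (r + q))) (by positivity)
    refine ⟨T0 + 1, fun T hT S hS => ?_⟩
    have h1 := hT0 T (by omega) (S.filter (fun t => t ∈ Z)) (fun t ht =>
      ⟨(mem_filter.1 ht).2, (hS t (mem_filter.1 ht).1).1⟩)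
    have h2 := (hC T (by omega) (S.filter (fun t => t ∉ Z)) (fun t ht =>
      ⟨(mem_filter.1 ht).2, (hS t (mem_filter.1 ht).1).1⟩)).2.2 r q
    have h3 : (S.filter (fun t => t ∉ Z)).filter (fun t => r ≤ rk (FtZ D u t) ∧
        HasDiv (FtZ D u t) q) = S.filter (fun t => t ∉ Z) := by
      refine filter_true_of_mem fun t ht => ?_
      exact (hS t (mem_filter.1 ht).1).2
    rw [h3] at h2
    have h4 : (S.card : ℝ) = ((S.filter (fun t => t ∈ Z)).card : ℝ) +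
        ((S.filter (fun t => t ∉ Z)).card : ℝ) := by
      exact_mod_cast (card_filter_add_card_filter_not (s := S) (fun t => t ∈ Z)).symm
    rw [h4]
    have hT2 : (0 : ℝ) ≤ (T : ℝ) ^ 2 := by positivity
    have h5 : C * (T : ℝ) ^ 2 / (2 : ℝ) ^ (s * (r + q)) ≤
        1 / (2 * A ^ (r + q)) * (T : ℝ) ^ 2 := by
      have h6 : 2 * C * A ^ (r + q) ≤ (2 : ℝ) ^ (s * (r + q)) := by
        have e1 : (2 : ℝ) ^ (s * (r + q)) = ((2 : ℝ) ^ s) ^ (r + q) := by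
          rw [Real.rpow_mul (by norm_num)]
          have : ((r : ℝ) + q) = ((r + q : ℕ) : ℝ) := by push_cast; ring
          rw [this, Real.rpow_natCast]
        have e2 : (2 * A) ^ (r + q) ≤ ((2 : ℝ) ^ s) ^ (r + q) :=
          pow_le_pow_left₀ (by positivity) hsA _
        have e3 : (2 : ℝ) ^ r0 ≤ 2 ^ (r + q) := pow_le_pow_right₀ (by norm_num) hrq
        rw [e1]
        refine le_trans ?_ e2
        rw [mul_pow]
        exact mul_le_mul_of_nonneg_right (hr0.trans e3) hAn.le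
      rw [div_le_iff₀ (by positivity)]
      have h7 : 1 / (2 * A ^ (r + q)) * (T : ℝ) ^ 2 * (2 : ℝ) ^ (s * (r + q)) =
          (2 : ℝ) ^ (s * (r + q)) / (2 * A ^ (r + q)) * (T : ℝ) ^ 2 := by ring
      rw [h7]
      refine mul_le_mul_of_nonneg_right ?_ hT2
      rw [le_div_iff₀ (by positivity)]
      linarith
    have h8 : (T : ℝ) ^ 2 / A ^ (r + q) =
        1 / (2 * A ^ (r + q)) * (T : ℝ) ^ 2 + 1 / (2 * A ^ (r + q)) * (T : ℝ) ^ 2 := by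
      field_simp
      ring
    rw [h8]
    exact add_le_add h1 (h2.trans h5)

end Pool.Agent.K7.H54.GU
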