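import Pool.Agent.K7.H54.GU.Bit
import Pool.Agent.TH841.PM.Mak

/-!
# Project GU: the main average
-/

set_option autoImplicit false
set_option linter.all false

namespace Pool.Agent.K7.H54.GU

open Finset Polynomial Pool.Agent.W262.RK Pool.Agent.W307.RT Pool.Agent.TH841.PT
open Pool.Agent.R421.HF
open Pool.Agent.R421.UR
open Pool.Agent.TH841.PM
open Pool.Agent.K7.H54.HR Pool.Agent.K7.H54.GT
open Pool.Agent.K7.H54.SG (SFam)
open Pool.Agent.TH344.DT (nn om Alt)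

open Pool.Agent.H474R2.PG (rho)

section

variable {J : Type} [Fintype J] [DecidableEq J]

variable {cls : J → Fin 4} {a : Fin 3 → ℤ} {f : J → ℤ[X]} {ε : Fin 3 → J → ℕ} {m z1 c : ℕ}

/-- **the main average for the `k`-th power of the local count** -/
theorem makQ (h : HG cls a f ε m) (hG : ZZ a f z1 c) (sp : J → Bool)
    (hsp1 : ∀ j, cls j ≠ 3 → sp j = false → NSqg (f j) (KQ cls a f ε j) 1)
    (hsp2 : ∀ j, cls j ≠ 3 → sp j = true → ∃ q : ℚ[X], mQ (f j) ∣ q ^ 2 - mQ (KQ cls a f ε j))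
    (k : ℕ) (hck : 2 * c ≤ 2 ^ k) (d : J → ℕ) (hd : ∀ j, (d j : ℝ) / 2 = ddq cls ε sp j)
    (T : Finset (J → ℝ)) (hT : ∀ t ∈ T, ∀ j, 0 < t j)
    (hU : ∀ U : Finset (IK4 cls k), (∀ i ∈ U, ∀ j ∈ U, LK4 cls i j = LK4 cls j i) →
      Alt (fun i : IK4 cls k => i.1.1) (fun i => wK cls i * ((d i.1.1 : ℝ) / 2)) (LK4 cls)
        (∑ j, (d j : ℝ) / 2) T U) :
    ∃ z0 : ℕ, ∀ z, z0 ≤ z → ∃ C : ℝ, ∀ y, z < y →
      ∑ s ∈ Tup (J × Ty) z y, NBK k (clsI cls) eI s *
        (∏ i, gp ((famq cls a f ε m z1 c).g i) c (s i)) *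
        wt T (fun j => ∑ θ : Ty, (s (j, θ)).primeFactors.card) ≤
        C * Real.exp (∑ j, Sp (rs (famq cls a f ε m z1 c).g j) z y) := by
  have hd0 : ∀ j, (0 : ℝ) < (d j : ℝ) / 2 := by
    intro j
    rw [hd]
    unfold ddq
    split_ifs <;> norm_num
  have hd1 : ∀ j, (d j : ℝ) / 2 ≤ 1 := by
    intro j
    rw [hd]
    unfold ddq
    split_ifs <;> norm_num
  obtain ⟨zm, hzm⟩ := mdlQ Pool.Agent.TH841.TR.h1l Pool.Agent.TH841.PT.twg h sp hsp1 hsp2 hG
  obtain ⟨zt, hzt⟩ := twistK Pool.Agent.TH841.TR.h1l Pool.Agent.TH841.PT.twg h hG k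
  obtain ⟨za, hza⟩ := atwx J (IK4 cls k) (fun i => i.1.1)
    (fun i => wK cls i * ((d i.1.1 : ℝ) / 2)) (LK4 cls) c (∑ j, (d j : ℝ) / 2) T
    (fun i => mul_pos (wK_pos cls i) (hd0 _)) (LK4_self cls)
    (sum_nonneg fun j _ => (hd0 j).le) hT hU
  refine ⟨zm + zt + za + 2, fun z hz => ?_⟩
  obtain ⟨C0, E0, hM⟩ := hzm z (by omega)
  obtain ⟨C1, E1, hC1, hE1, htw⟩ := hzt z (by omega)
  set g := (famq cls a f ε m z1 c).g with hg
  have hg0 : ∀ i p, 0 ≤ g i p := hM.g0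
  have hSpb : ∀ (i : IK4 cls k) y, Sp (bwq cls g i) z y = wK cls i * Sp (rs g i.1.1) z y := by
    intro i y
    unfold Sp
    rw [mul_sum]
    refine sum_congr rfl fun p hp => ?_
    unfold bwq
    ring
  have hSn : ∀ (i : IK4 cls k) y, 0 ≤ Sp (bwq cls g i) z y := by
    intro i y
    unfold Sp
    refine sum_nonneg fun p _ => div_nonneg ?_ (Nat.cast_nonneg _)
    exact (abs_nonneg _).trans (aK_abs hg0 i p)
  obtain ⟨C, hC⟩ := hza z (by omega) (aK cls g) (bwq cls g) (C0 + C1) E1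
    (by
      intro i p
      refine ⟨aK_abs hg0 i p, ?_⟩
      unfold bwq
      have h3 := wK_le cls i
      have h2 := hM.gc i.1.1 p
      have h5 := hM.rs0 i.1.1 p
      have h6 : (2 : ℝ) * c ≤ 2 ^ k := by exact_mod_cast hck
      have h7 : (0 : ℝ) < 2 ^ k := by positivity
      calc wK cls i * rs g i.1.1 p ≤ 1 / 2 ^ k * c := mul_le_mul h3 h2 h5 (by positivity)
        _ ≤ 1 / 2 := by
          rw [div_mul_eq_mul_div, one_mul, div_le_div_iff₀ h7 (by norm_num)]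
          linarith)
    hE1
    (by
      intro i y hy
      have h1 : wK cls i * ((d i.1.1 : ℝ) / 2) * Real.log (Real.log y) =
          wK cls i * (ddq cls ε sp i.1.1 * Real.log (Real.log y)) := by
        rw [hd]
        ring
      rw [hSpb, h1, ← mul_sub, abs_mul, abs_of_pos (wK_pos cls i)]
      have h2 : |Sp (rs g i.1.1) z y - ddq cls ε sp i.1.1 * Real.log (Real.log y)| ≤ C0 := by
        rw [abs_le]
        have e1 := hM.lo i.1.1 y hy
        have e2 := hM.up i.1.1 y hy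
        constructor <;> linarith
      have h3 := hM.hC
      calc wK cls i * _ ≤ 1 * C0 := mul_le_mul (wK_le_one cls i) h2 (abs_nonneg _) zero_le_one
        _ ≤ C0 + C1 := by linarith)
    (by
      intro i y r e hy hr hsq hpr
      have h1 := htw i y r e hy hr hsq hpr
      have h2 := hSn i y
      have h3 := hM.hC
      linarith)
  obtain ⟨CJ, hCJ⟩ : ∃ CJ : ℝ, CJ = Fintype.card J * C0 := ⟨_, rfl⟩
  refine ⟨|C| * Real.exp CJ, fun y hy => ?_⟩
  have h1 := exptK EXPf.expk MergeF.merge cls g k c z y (by omega) (wt T)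
  rw [h1]
  have h2 := hC y hy
  have hz2 : 2 ≤ z := by omega
  have hly : 0 < Real.log y := Real.log_pos (by exact_mod_cast (by omega : 1 < y))
  have h4 : (Real.log y) ^ (∑ j, (d j : ℝ) / 2) ≤
      Real.exp CJ * Real.exp (∑ j, Sp (rs g j) z y) := by
    rw [Real.rpow_def_of_pos hly, ← Real.exp_add]
    apply Real.exp_le_exp.2
    have h5 : ∑ j : J, ((d j : ℝ) / 2 * Real.log (Real.log y) - C0) ≤
        ∑ j, Sp (rs g j) z y := by
      refine sum_le_sum fun j _ => ?_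
      rw [hd]
      exact hM.lo j y hy
    rw [sum_sub_distrib, ← sum_mul, sum_const, nsmul_eq_mul, card_univ] at h5
    rw [hCJ]
    linarith
  have h3 : ∑ d ∈ Tup (IK4 cls k) z y, (∏ i : IK4 cls k, gp (fun p => Jr (κK4 cls i) p *
        ∑ θ : Ty, wK cls i * ((if bK cls (fun _ => θ) i then -1 else 1) *
          g (i.1.1, θ) p)) c (d i)) * Sym (LK4 cls) (fun _ => 1) d *
          wt T (nn (fun i : IK4 cls k => i.1.1) (Pool.Agent.TH344.DT.om d)) ≤
      C * (Real.log y) ^ (∑ j, (d j : ℝ) / 2) := (le_abs_self _).trans h2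
  calc _ ≤ _ := h3
    _ ≤ |C| * (Real.log y) ^ (∑ j, (d j : ℝ) / 2) :=
        mul_le_mul_of_nonneg_right (le_abs_self C) (Real.rpow_nonneg hly.le _)
    _ ≤ |C| * (Real.exp CJ * Real.exp (∑ j, Sp (rs g j) z y)) :=
        mul_le_mul_of_nonneg_left h4 (abs_nonneg _)
    _ = |C| * Real.exp CJ * Real.exp (∑ j, Sp (rs g j) z y) := by ring

end

end Pool.Agent.K7.H54.GU
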